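import Mathlib
import Pool.Agent.H84.TO.TargetsH

/-!
# TO, module ARM: area formula with multiplicities for `C^1` maps

Real version of `Pool.Agent.H65.VG.ARE` (helper65), in a finite dimensional space.
-/

open MeasureTheory Set Filter Topology
open scoped ENNReal NNReal ContDiff

namespace Pool.Agent.H86.TO

section gen
variable {E : Type*} [NormedAddCommGroup E] [NormedSpace ℝ E] [FiniteDimensional ℝ E]

omit [FiniteDimensional ℝ E] in
lemma continuous_det {f : E → E} (hf : ContDiff ℝ 1 f) :
    Continuous (fun x => (fderiv ℝ f x).det) :=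
  ContinuousLinearMap.continuous_det.comp (hf.continuous_fderiv (by simp))

/-- local injectivity where the Jacobian does not vanish -/
lemma exists_injOn {f : E → E} (hf : ContDiff ℝ 1 f) {z : E} (hd : (fderiv ℝ f z).det ≠ 0) :
    ∃ B : Set E, IsOpen B ∧ z ∈ B ∧ InjOn f B := by
  have : CompleteSpace E := FiniteDimensional.complete ℝ E
  have hs : HasStrictFDerivAt f (fderiv ℝ f z) z := hf.contDiffAt.hasStrictFDerivAt (by simp)
  set e : E ≃L[ℝ] E := (fderiv ℝ f z).toContinuousLinearEquivOfDetNeZero hd with he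
  have hs' : HasStrictFDerivAt f (e : E →L[ℝ] E) z := by
    have : (e : E →L[ℝ] E) = fderiv ℝ f z := by
      ext v : 1
      rfl
    rw [this]
    exact hs
  refine ⟨(hs'.toOpenPartialHomeomorph f).source, (hs'.toOpenPartialHomeomorph f).open_source,
    hs'.mem_toOpenPartialHomeomorph_source, ?_⟩
  have := (hs'.toOpenPartialHomeomorph f).injOn
  rwa [hs'.toOpenPartialHomeomorph_coe] at this

/-- a countable cover of the regular set by open sets of injectivity -/
lemma exists_cover {f : E → E} (hf : ContDiff ℝ 1 f) :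
    ∃ B : ℕ → Set E, (∀ i, IsOpen (B i)) ∧ (∀ i, InjOn f (B i)) ∧
      {z | (fderiv ℝ f z).det ≠ 0} ⊆ ⋃ i, B i := by
  classical
  have : SecondCountableTopology E := by
    have : ProperSpace E := FiniteDimensional.proper_real E
    infer_instance
  have hex : ∀ z : E, ∃ B : Set E, IsOpen B ∧ InjOn f B ∧
      ((fderiv ℝ f z).det ≠ 0 → z ∈ B) := by
    intro z
    by_cases h : (fderiv ℝ f z).det ≠ 0
    · obtain ⟨B, h1, h2, h3⟩ := exists_injOn hf h
      exact ⟨B, h1, h3, fun _ => h2⟩
    · exact ⟨∅, isOpen_empty, injOn_empty _, fun h1 => absurd h1 h⟩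
  choose B hB1 hB2 hB3 using hex
  obtain ⟨t, ht, htc, htcov⟩ := TopologicalSpace.countable_cover_nhdsWithin
    (s := {z | (fderiv ℝ f z).det ≠ 0}) (f := B)
    (fun x hx => mem_nhdsWithin_of_mem_nhds ((hB1 x).mem_nhds (hB3 x hx)))
  by_cases hte : t.Nonempty
  · obtain ⟨u, hu⟩ := htc.exists_eq_range hte
    refine ⟨fun i => B (u i), fun i => hB1 _, fun i => hB2 _, ?_⟩
    refine htcov.trans ?_
    rw [hu]
    simp
  · rw [not_nonempty_iff_eq_empty] at hte
    subst hte
    refine ⟨fun _ => ∅, fun _ => isOpen_empty, fun _ => injOn_empty _, ?_⟩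
    simpa using htcov

variable [MeasurableSpace E] [BorelSpace E]

/-- a countable measurable partition into pieces of injectivity -/
lemma exists_pieces {f : E → E} (hf : ContDiff ℝ 1 f) :
    ∃ P : ℕ → Set E, (∀ i, MeasurableSet (P i)) ∧ (∀ i, InjOn f (P i)) ∧
      Pairwise (Function.onFun Disjoint P) ∧ (⋃ i, P i) = {z | (fderiv ℝ f z).det ≠ 0} := by
  obtain ⟨B, hB1, hB2, hB3⟩ := exists_cover hf
  have hm : MeasurableSet {z | (fderiv ℝ f z).det ≠ 0} :=
    (isOpen_compl_singleton.preimage (continuous_det hf)).measurableSet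
  refine ⟨fun i => {z | (fderiv ℝ f z).det ≠ 0} ∩ disjointed B i, ?_, ?_, ?_, ?_⟩
  · intro i
    exact hm.inter (MeasurableSet.disjointed (fun j => (hB1 j).measurableSet) i)
  · intro i
    exact (hB2 i).mono (inter_subset_right.trans (disjointed_subset B i))
  · intro i j hij
    exact (disjoint_disjointed B hij).mono inter_subset_right inter_subset_right
  · rw [← inter_iUnion, iUnion_disjointed]
    exact inter_eq_left.2 hB3

omit [NormedAddCommGroup E] [NormedSpace ℝ E] [FiniteDimensional ℝ E] [MeasurableSpace E] [BorelSpace E] in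
/-- the fibre sum over a piece of injectivity -/
lemma tsum_piece {P : Set E} {f : E → E} (hinj : InjOn f P) (g : E → ℝ≥0∞) (y : E) :
    ∑' z, (P ∩ f ⁻¹' {y}).indicator g z
      = Function.extend (P.domRestrict f) (P.domRestrict g) 0 y := by
  classical
  by_cases h : ∃ z ∈ P, f z = y
  · obtain ⟨z, hz, rfl⟩ := h
    have h1 : Function.extend (P.domRestrict f) (P.domRestrict g) 0 (f z) = g z := by
      have := (injOn_iff_injective.1 hinj).extend_apply (P.domRestrict g) 0 ⟨z, hz⟩
      simpa using this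
    rw [h1, tsum_eq_single z]
    · rw [indicator_of_mem]
      exact ⟨hz, rfl⟩
    · intro z' hz'
      rw [indicator_of_notMem]
      rintro ⟨h2, h3⟩
      exact hz' (hinj h2 hz h3)
  · rw [Function.extend_apply']
    · simp only [Pi.zero_apply]
      rw [ENNReal.tsum_eq_zero]
      intro z
      rw [indicator_of_notMem]
      rintro ⟨h2, h3⟩
      exact h ⟨z, h2, h3⟩
    · rintro ⟨⟨z, hz⟩, h2⟩
      exact h ⟨z, hz, h2⟩

/-- the area formula with multiplicities -/
theorem area {f : E → E} {g : E → ℝ≥0∞} (μ : Measure E) [μ.IsAddHaarMeasure]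
    (hf : ContDiff ℝ 1 f) (hg : Measurable g) :
    ∫⁻ x, g x * ENNReal.ofReal |(fderiv ℝ f x).det| ∂μ
      = ∫⁻ y, ∑' x : {x : E // f x = y ∧ (fderiv ℝ f x).det ≠ 0}, g x.1 ∂μ := by
  obtain ⟨P, hP1, hP2, hP3, hP4⟩ := exists_pieces hf
  have hder : ∀ i, ∀ x ∈ P i, HasFDerivWithinAt f (fderiv ℝ f x) (P i) x := by
    intro i x hx
    exact ((hf.differentiable (by simp)) x).hasFDerivAt.hasFDerivWithinAt
  have hemb : ∀ i, MeasurableEmbedding ((P i).domRestrict f) := fun i =>
    measurableEmbedding_of_fderivWithin (hP1 i) (hder i) (hP2 i)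
  set h : ℕ → E → ℝ≥0∞ := fun i =>
    Function.extend ((P i).domRestrict f) ((P i).domRestrict g) 0 with hh
  have hhm : ∀ i, Measurable (h i) := fun i =>
    (hemb i).measurable_extend (hg.comp measurable_subtype_coe) measurable_zero
  -- the fibre sum
  have hsum : ∀ y, ∑' z : {z // f z = y ∧ (fderiv ℝ f z).det ≠ 0}, g z.1 = ∑' i, h i y := by
    intro y
    have h1 : ∀ z, {z | f z = y ∧ (fderiv ℝ f z).det ≠ 0}.indicator g z
        = ∑' i, (P i ∩ f ⁻¹' {y}).indicator g z := by
      intro z
      by_cases hz : z ∈ {z | f z = y ∧ (fderiv ℝ f z).det ≠ 0}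
      · rw [indicator_of_mem hz]
        have hz' : z ∈ ⋃ i, P i := by
          rw [hP4]
          exact hz.2
        obtain ⟨i, hi⟩ := mem_iUnion.1 hz'
        rw [tsum_eq_single i]
        · rw [indicator_of_mem]
          exact ⟨hi, hz.1⟩
        · intro j hj
          rw [indicator_of_notMem]
          rintro ⟨hj', _⟩
          exact (Set.disjoint_left.1 (hP3 hj)) hj' hi
      · rw [indicator_of_notMem hz, eq_comm, ENNReal.tsum_eq_zero]
        intro i
        rw [indicator_of_notMem]
        rintro ⟨h2, h3⟩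
        have h4 : z ∈ {z | (fderiv ℝ f z).det ≠ 0} := hP4 ▸ mem_iUnion_of_mem i h2
        exact hz ⟨h3, h4⟩
    have h2 : ∑' z : {z // f z = y ∧ (fderiv ℝ f z).det ≠ 0}, g z.1
        = ∑' z, {z | f z = y ∧ (fderiv ℝ f z).det ≠ 0}.indicator g z :=
      tsum_subtype {z | f z = y ∧ (fderiv ℝ f z).det ≠ 0} g
    rw [h2]
    simp_rw [h1]
    rw [ENNReal.tsum_comm]
    refine tsum_congr fun i => ?_
    exact tsum_piece (hP2 i) g y
  have hint : ∀ i, ∫⁻ y, h i y ∂μ = ∫⁻ z in P i, g z * ENNReal.ofReal |(fderiv ℝ f z).det| ∂μ := by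
    intro i
    have h1 : ∫⁻ y, h i y ∂μ = ∫⁻ y in f '' (P i), h i y ∂μ := by
      rw [← lintegral_indicator ((hemb i).measurableSet_range.congr (by
        rw [Set.range_domRestrict]))]
      refine lintegral_congr fun y => ?_
      by_cases hy : y ∈ f '' (P i)
      · rw [indicator_of_mem hy]
      · rw [indicator_of_notMem hy]
        simp only [hh]
        rw [Function.extend_apply']
        · rfl
        · rintro ⟨⟨z, hz⟩, h2⟩
          exact hy ⟨z, hz, h2⟩
    rw [h1, lintegral_image_eq_lintegral_abs_det_fderiv_mul μ (hP1 i) (hder i) (hP2 i)]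
    refine setLIntegral_congr_fun (hP1 i) fun z hz => ?_
    have h2 : h i (f z) = g z := by
      have := (injOn_iff_injective.1 (hP2 i)).extend_apply ((P i).domRestrict g) 0 ⟨z, hz⟩
      simpa [hh] using this
    simp only [h2]
    rw [mul_comm]
  simp_rw [hsum]
  rw [lintegral_tsum fun i => (hhm i).aemeasurable]
  simp_rw [hint]
  rw [← lintegral_iUnion hP1 hP3, hP4]
  have hm : MeasurableSet {z | (fderiv ℝ f z).det ≠ 0} :=
    (isOpen_compl_singleton.preimage (continuous_det hf)).measurableSet
  rw [← lintegral_indicator hm]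
  refine lintegral_congr fun x => ?_
  by_cases hx : x ∈ {z | (fderiv ℝ f z).det ≠ 0}
  · rw [indicator_of_mem hx]
  · rw [indicator_of_notMem hx]
    have : (fderiv ℝ f x).det = 0 := by simpa using hx
    rw [this]
    simp

end gen

open Pool.Agent.H84.TO in
theorem arm : T_ARM := by
  intro m n _ _ f g hf hg
  have hb : @BorelSpace (Matrix m n ℝ)
      (instNormMat (m := m) (n := n)).toPseudoMetricSpace.toUniformSpace.toTopologicalSpace
      instMeasMat := instBorelMat
  have ha : @Measure.IsAddHaarMeasure (Matrix m n ℝ) _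
      (instNormMat (m := m) (n := n)).toPseudoMetricSpace.toUniformSpace.toTopologicalSpace
      instMeasMat volume := instHaarMat
  exact area volume hf hg

end Pool.Agent.H86.TO
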