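import Mathlib
import Pool.Agent.H84.TO.TargetsH

/-!
# TO: the matrix product as a continuous bilinear map
-/

open MeasureTheory Matrix Filter Topology
open scoped ENNReal NNReal

namespace Pool.Agent.H86.TO

open Pool.Agent.H84.TO

section
variable {m n p : Type*} [Fintype m] [Fintype n] [Fintype p]

/-- the matrix product as a bilinear map -/
def mulL (m n p : Type*) [Fintype n] :
    Matrix m n ℝ →ₗ[ℝ] Matrix n p ℝ →ₗ[ℝ] Matrix m p ℝ :=
  LinearMap.mk₂ ℝ (fun A B => A * B) (fun A A' B => Matrix.add_mul A A' B)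
    (fun c A B => Matrix.smul_mul c A B) (fun A B B' => Matrix.mul_add A B B')
    (fun c A B => Matrix.mul_smul A c B)

/-- the matrix product as a continuous bilinear map -/
noncomputable def mulB (m n p : Type*) [Fintype m] [Fintype n] [Fintype p] :
    Matrix m n ℝ →L[ℝ] Matrix n p ℝ →L[ℝ] Matrix m p ℝ :=
  LinearMap.toContinuousLinearMap
    ((LinearMap.toContinuousLinearMap :
      (Matrix n p ℝ →ₗ[ℝ] Matrix m p ℝ) ≃ₗ[ℝ] (Matrix n p ℝ →L[ℝ] Matrix m p ℝ)).toLinearMap ∘ₗ
        mulL m n p)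

theorem mulB_apply (A : Matrix m n ℝ) (B : Matrix n p ℝ) : mulB m n p A B = A * B := rfl

end

end Pool.Agent.H86.TO
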