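import Mathlib
import Pool.Agent.H84.TO.TargetsH
import Pool.Agent.H86.TO.Bil

/-!
# TO, module BLKV: determinants of multiplications by matrices
-/

open MeasureTheory Matrix Filter Topology
open scoped ENNReal NNReal

namespace Pool.Agent.H86.TO

open Pool.Agent.H84.TO

section
variable {m n : Type} [Fintype m] [DecidableEq m] [Fintype n] [DecidableEq n]

omit [DecidableEq m] in
theorem det_rgt (Z : Matrix n n ℝ) :
    LinearMap.det (rgt Z : Matrix m n ℝ →ₗ[ℝ] Matrix m n ℝ) = Z.det ^ Fintype.card m := by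
  have h : (rgt Z : Matrix m n ℝ →ₗ[ℝ] Matrix m n ℝ) =
      (LinearMap.pi (fun i : m => (Matrix.toLin' Zᵀ).comp (LinearMap.proj i)) :
        (m → n → ℝ) →ₗ[ℝ] (m → n → ℝ)) := by
    refine LinearMap.ext fun H => ?_
    funext i
    change (H * Z) i = Zᵀ *ᵥ (H i)
    rw [Matrix.mul_apply_eq_vecMul, Matrix.mulVec_transpose]
  rw [h]
  have h2 := LinearMap.det_pi (R := ℝ) (fun _ : m => Matrix.toLin' Zᵀ)
  refine h2.trans ?_
  simp

theorem det_lft (X : Matrix m m ℝ) :
    LinearMap.det (lft X : Matrix m n ℝ →ₗ[ℝ] Matrix m n ℝ) = X.det ^ Fintype.card n := by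
  have h : (lft X : Matrix m n ℝ →ₗ[ℝ] Matrix m n ℝ) =
      (Matrix.transposeLinearEquiv n m ℝ ℝ : Matrix n m ℝ →ₗ[ℝ] Matrix m n ℝ) ∘ₗ
        (rgt Xᵀ : Matrix n m ℝ →ₗ[ℝ] Matrix n m ℝ) ∘ₗ
        ((Matrix.transposeLinearEquiv n m ℝ ℝ).symm : Matrix m n ℝ →ₗ[ℝ] Matrix n m ℝ) := by
    refine LinearMap.ext fun H => ?_
    change X * H = (Hᵀ * Xᵀ)ᵀ
    rw [Matrix.transpose_mul, Matrix.transpose_transpose, Matrix.transpose_transpose]
  rw [h, LinearMap.det_conj, det_rgt, Matrix.det_transpose]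

theorem mp_of_det {f : Matrix m n ℝ →ₗ[ℝ] Matrix m n ℝ} (hf : |LinearMap.det f| = 1) :
    MeasurePreserving f volume volume := by
  have h0 : LinearMap.det f ≠ 0 := by
    intro h
    rw [h] at hf
    simp at hf
  have hb : @BorelSpace (Matrix m n ℝ)
      (instNormMat (m := m) (n := n)).toPseudoMetricSpace.toUniformSpace.toTopologicalSpace
      instMeasMat := instBorelMat
  have ha : @Measure.IsAddHaarMeasure (Matrix m n ℝ) _
      (instNormMat (m := m) (n := n)).toPseudoMetricSpace.toUniformSpace.toTopologicalSpace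
      instMeasMat volume := instHaarMat
  refine ⟨(LinearMap.continuous_of_finiteDimensional f).measurable, ?_⟩
  have := Measure.map_linearMap_addHaar_eq_smul_addHaar (volume : Measure (Matrix m n ℝ)) h0
  refine this.trans ?_
  rw [abs_inv, hf]
  simp

end

theorem blkv : T_BLKV := by
  intro m n _ _ _ _ X Z
  refine ⟨det_lft X, det_rgt Z, fun h => ?_, fun h => ?_⟩
  · exact mp_of_det (f := lft X) (by rw [det_lft, abs_pow, h, one_pow])
  · exact mp_of_det (f := rgt Z) (by rw [det_rgt, abs_pow, h, one_pow])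

end Pool.Agent.H86.TO
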