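import Mathlib
import Pool.Agent.H84.TO.TargetsH

/-!
# TO, module CON: invariance of the Stein data under the linear group
-/

open MeasureTheory Matrix Filter Topology
open scoped ENNReal NNReal

namespace Pool.Agent.H86.TO

open Pool.Agent.H84.TO

section
variable {ι κ : Type} [Fintype ι] [DecidableEq ι] [Fintype κ] [DecidableEq κ]

theorem top_conj (g : Matrix ι ι ℝ) (Y : Matrix (ι ⊕ κ) ι ℝ) :
    top (Pool.Agent.H84.TO.ext κ g * Y * g⁻¹) = g * top Y * g⁻¹ := by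
  ext i j
  simp [Pool.Agent.H84.TO.ext, Matrix.mul_apply, Fintype.sum_sum_type, Matrix.toRows₁]

theorem bot_conj (g : Matrix ι ι ℝ) (Y : Matrix (ι ⊕ κ) ι ℝ) :
    bot (Pool.Agent.H84.TO.ext κ g * Y * g⁻¹) = bot Y * g⁻¹ := by
  ext i j
  simp [Pool.Agent.H84.TO.ext, Matrix.mul_apply, Fintype.sum_sum_type, Matrix.toRows₂,
    Matrix.one_apply]

/-- the solution of the Stein equation solves it -/
theorem solP_spec {Y : Matrix (ι ⊕ κ) ι ℝ} (h : Function.Injective (sylv (top Y) (top Y))) :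
    sylv (top Y) (top Y) (solP Y) = (bot Y)ᵀ * bot Y := by
  have hs : Function.Surjective (sylv (top Y) (top Y)) :=
    LinearMap.surjective_of_injective h
  unfold solP
  rw [if_pos h]
  exact Function.invFun_eq (hs _)

theorem solP_eq {Y : Matrix (ι ⊕ κ) ι ℝ} (h : Function.Injective (sylv (top Y) (top Y)))
    {Q : Matrix ι ι ℝ} (hQ : sylv (top Y) (top Y) Q = (bot Y)ᵀ * bot Y) : solP Y = Q :=
  h (by rw [solP_spec h, hQ])

/-- the congruence by the inverse of `g` -/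
noncomputable def cg {g : Matrix ι ι ℝ} (hg : IsUnit g.det) :
    Matrix ι ι ℝ ≃ₗ[ℝ] Matrix ι ι ℝ where
  toFun Q := (g⁻¹)ᵀ * Q * g⁻¹
  invFun Q := gᵀ * Q * g
  map_add' P Q := by rw [Matrix.mul_add, Matrix.add_mul]
  map_smul' c Q := by rw [Matrix.mul_smul, Matrix.smul_mul]; rfl
  left_inv Q := by
    change gᵀ * ((g⁻¹)ᵀ * Q * g⁻¹) * g = Q
    have h1 : gᵀ * (g⁻¹)ᵀ = 1 := by
      rw [← transpose_mul, Matrix.nonsing_inv_mul g hg, transpose_one]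
    rw [← Matrix.mul_assoc, ← Matrix.mul_assoc, h1, Matrix.one_mul, Matrix.mul_assoc,
      Matrix.nonsing_inv_mul g hg, Matrix.mul_one]
  right_inv Q := by
    change (g⁻¹)ᵀ * (gᵀ * Q * g) * g⁻¹ = Q
    have h1 : (g⁻¹)ᵀ * gᵀ = 1 := by
      rw [← transpose_mul, Matrix.mul_nonsing_inv g hg, transpose_one]
    rw [← Matrix.mul_assoc, ← Matrix.mul_assoc, h1, Matrix.one_mul, Matrix.mul_assoc,
      Matrix.mul_nonsing_inv g hg, Matrix.mul_one]

theorem cg_apply {g : Matrix ι ι ℝ} (hg : IsUnit g.det) (Q : Matrix ι ι ℝ) :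
    cg hg Q = (g⁻¹)ᵀ * Q * g⁻¹ := rfl

theorem cg_symm_apply {g : Matrix ι ι ℝ} (hg : IsUnit g.det) (Q : Matrix ι ι ℝ) :
    (cg hg).symm Q = gᵀ * Q * g := rfl

theorem cg_sy {g : Matrix ι ι ℝ} (hg : IsUnit g.det) {Q : Matrix ι ι ℝ} (hQ : Q ∈ Sy ι) :
    cg hg Q ∈ Sy ι := by
  have h : Qᵀ = Q := hQ
  change ((g⁻¹)ᵀ * Q * g⁻¹)ᵀ = (g⁻¹)ᵀ * Q * g⁻¹
  rw [transpose_mul, transpose_mul, h, transpose_transpose, Matrix.mul_assoc]

theorem cg_symm_sy {g : Matrix ι ι ℝ} (hg : IsUnit g.det) {Q : Matrix ι ι ℝ} (hQ : Q ∈ Sy ι) :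
    (cg hg).symm Q ∈ Sy ι := by
  have h : Qᵀ = Q := hQ
  change (gᵀ * Q * g)ᵀ = gᵀ * Q * g
  rw [transpose_mul, transpose_mul, h, transpose_transpose, Matrix.mul_assoc]

theorem sylv_cg {g : Matrix ι ι ℝ} (hg : IsUnit g.det) (A Q : Matrix ι ι ℝ) :
    sylv (g * A * g⁻¹) (g * A * g⁻¹) (cg hg Q) = cg hg (sylv A A Q) := by
  change (g⁻¹)ᵀ * Q * g⁻¹ - (g * A * g⁻¹)ᵀ * ((g⁻¹)ᵀ * Q * g⁻¹) * (g * A * g⁻¹) =
    (g⁻¹)ᵀ * (Q - Aᵀ * Q * A) * g⁻¹
  have h1 : (g * A * g⁻¹)ᵀ * ((g⁻¹)ᵀ * Q * g⁻¹) * (g * A * g⁻¹) =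
      (g⁻¹)ᵀ * (Aᵀ * Q * A) * g⁻¹ := by
    have h2 : gᵀ * (g⁻¹)ᵀ = 1 := by
      rw [← transpose_mul, Matrix.nonsing_inv_mul g hg, transpose_one]
    calc (g * A * g⁻¹)ᵀ * ((g⁻¹)ᵀ * Q * g⁻¹) * (g * A * g⁻¹)
        = (g⁻¹)ᵀ * (Aᵀ * (gᵀ * (g⁻¹)ᵀ) * Q * (g⁻¹ * g) * A) * g⁻¹ := by
          rw [transpose_mul, transpose_mul]
          simp only [Matrix.mul_assoc]
      _ = _ := by
          rw [h2, Matrix.nonsing_inv_mul g hg, Matrix.mul_one, Matrix.mul_one]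
  rw [h1, Matrix.mul_sub, Matrix.sub_mul]

theorem inj_conj {g : Matrix ι ι ℝ} (hg : IsUnit g.det) (A : Matrix ι ι ℝ) :
    Function.Injective (sylv (g * A * g⁻¹) (g * A * g⁻¹)) ↔ Function.Injective (sylv A A) := by
  have h1 : (sylv (g * A * g⁻¹) (g * A * g⁻¹) : Matrix ι ι ℝ → Matrix ι ι ℝ) ∘ (cg hg) =
      (cg hg) ∘ (sylv A A : Matrix ι ι ℝ → Matrix ι ι ℝ) := by
    funext Q
    exact sylv_cg hg A Q
  rw [← Function.Injective.of_comp_iff' (sylv (g * A * g⁻¹) (g * A * g⁻¹) : Matrix ι ι ℝ → _)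
    (cg hg).bijective]
  rw [h1]
  exact Function.Injective.of_comp_iff (cg hg).injective _

theorem detS_conj {g : Matrix ι ι ℝ} (hg : IsUnit g.det) (A : Matrix ι ι ℝ) :
    detS (g * A * g⁻¹) = detS A := by
  unfold detS
  set c : Sy ι ≃ₗ[ℝ] Sy ι :=
    { toFun := fun Q => ⟨cg hg Q.1, cg_sy hg Q.2⟩
      invFun := fun Q => ⟨(cg hg).symm Q.1, cg_symm_sy hg Q.2⟩
      map_add' := fun P Q => Subtype.ext (map_add (cg hg) P.1 Q.1)
      map_smul' := fun r Q => Subtype.ext (map_smul (cg hg) r Q.1)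
      left_inv := fun Q => Subtype.ext ((cg hg).symm_apply_apply Q.1)
      right_inv := fun Q => Subtype.ext ((cg hg).apply_symm_apply Q.1) } with hc
  have h : (sylv (g * A * g⁻¹) (g * A * g⁻¹)).restrict (sylv_mem _) =
      (c : Sy ι →ₗ[ℝ] Sy ι) ∘ₗ ((sylv A A).restrict (sylv_mem A)) ∘ₗ
        (c.symm : Sy ι →ₗ[ℝ] Sy ι) := by
    refine LinearMap.ext fun Q => ?_
    apply Subtype.ext
    change sylv (g * A * g⁻¹) (g * A * g⁻¹) Q.1 = cg hg (sylv A A ((cg hg).symm Q.1))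
    rw [← sylv_cg, (cg hg).apply_symm_apply]
  rw [h, LinearMap.det_conj]

theorem posDef_cg {g : Matrix ι ι ℝ} (hg : IsUnit g.det) (P : Matrix ι ι ℝ) :
    ((g⁻¹)ᵀ * P * g⁻¹).PosDef ↔ P.PosDef := by
  have hu : IsUnit (g⁻¹) := by
    rw [Matrix.isUnit_iff_isUnit_det]
    exact Matrix.isUnit_nonsing_inv_det g hg
  have := Matrix.IsUnit.posDef_star_left_conjugate_iff (U := g⁻¹) (x := P) hu
  rwa [Matrix.star_eq_conjTranspose, Matrix.conjTranspose_eq_transpose_of_trivial] at this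

theorem solP_conj {g : Matrix ι ι ℝ} (hg : IsUnit g.det) (Y : Matrix (ι ⊕ κ) ι ℝ) :
    solP (Pool.Agent.H84.TO.ext κ g * Y * g⁻¹) = (g⁻¹)ᵀ * solP Y * g⁻¹ := by
  by_cases h : Function.Injective (sylv (top Y) (top Y))
  · have h' : Function.Injective (sylv (top (Pool.Agent.H84.TO.ext κ g * Y * g⁻¹))
        (top (Pool.Agent.H84.TO.ext κ g * Y * g⁻¹))) := by
      rw [top_conj]
      exact (inj_conj hg _).2 h
    refine solP_eq h' ?_
    rw [top_conj, bot_conj]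
    change sylv (g * top Y * g⁻¹) (g * top Y * g⁻¹) (cg hg (solP Y)) = _
    rw [sylv_cg, solP_spec h, cg_apply, transpose_mul]
    simp only [Matrix.mul_assoc]
  · have h' : ¬ Function.Injective (sylv (top (Pool.Agent.H84.TO.ext κ g * Y * g⁻¹))
        (top (Pool.Agent.H84.TO.ext κ g * Y * g⁻¹))) := by
      rw [top_conj]
      exact fun h2 => h ((inj_conj hg _).1 h2)
    unfold solP
    rw [if_neg h, if_neg h']
    simp

theorem good_conj {g : Matrix ι ι ℝ} (hg : IsUnit g.det) (Y : Matrix (ι ⊕ κ) ι ℝ) :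
    good (Pool.Agent.H84.TO.ext κ g * Y * g⁻¹) ↔ good Y := by
  unfold good
  rw [solP_conj hg, posDef_cg hg, top_conj, inj_conj hg]
end

theorem con : T_CON := by
  intro ι κ _ _ _ _ g Y hg
  refine ⟨top_conj g Y, ?_, solP_conj hg Y, good_conj hg Y, fun h1 => ?_⟩
  · rw [top_conj, detS_conj hg]
  · unfold den
    rw [solP_conj hg, top_conj, detS_conj hg, det_mul, det_mul, det_transpose,
      Matrix.det_nonsing_inv, h1]
    simp

end Pool.Agent.H86.TO
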