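import Mathlib
import Pool.Agent.H84.TO.TargetsH
import Pool.Agent.H86.TO.Bil
import Pool.Agent.H86.TO.BLKV

/-!
# TO, module F1D: the Jacobian of the shear coordinates
-/

open MeasureTheory Matrix Filter Topology
open scoped ENNReal NNReal

namespace Pool.Agent.H86.TO

open Pool.Agent.H84.TO

/-- a determinant read off on a quotient -/
theorem det_of_quot {V U : Type*} [AddCommGroup V] [Module ℝ V] [FiniteDimensional ℝ V]
    [AddCommGroup U] [Module ℝ U] (f : V →ₗ[ℝ] V) (g : U →ₗ[ℝ] U) (π : V →ₗ[ℝ] U)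
    (hπ : Function.Surjective π) (h1 : ∀ x, π x = 0 → f x = x) (h2 : ∀ x, π (f x) = g (π x)) :
    LinearMap.det f = LinearMap.det g := by
  set W : Submodule ℝ V := LinearMap.ker π with hW
  have e : W ≤ W.comap f := by
    intro x hx
    change f x ∈ W
    rw [h1 x hx]
    exact hx
  rw [LinearMap.det_eq_det_mul_det W f e]
  have h3 : f.restrict e = LinearMap.id := by
    refine LinearMap.ext fun x => ?_
    apply Subtype.ext
    exact h1 x.1 x.2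
  rw [h3, LinearMap.det_id, one_mul]
  set q := π.quotKerEquivOfSurjective hπ with hq
  have h4 : g = (q : (V ⧸ W) →ₗ[ℝ] U) ∘ₗ (W.mapQ W f e) ∘ₗ (q.symm : U →ₗ[ℝ] _) := by
    refine LinearMap.ext fun s => ?_
    obtain ⟨x, rfl⟩ := hπ s
    have h5 : q.symm (π x) = Submodule.Quotient.mk x := by
      rw [LinearEquiv.symm_apply_eq]
      rfl
    rw [← h2 x]
    change π (f x) = q (W.mapQ W f e (q.symm (π x)))
    rw [h5]
    rfl
  rw [h4, LinearMap.det_conj]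

section
variable {a b κ : Type} [Fintype a] [DecidableEq a] [Fintype b] [DecidableEq b]
  [Fintype κ] [DecidableEq κ]

/-- block `21`, as a linear map -/
def XofL (a b κ : Type) : Matrix ((a ⊕ b) ⊕ κ) (a ⊕ b) ℝ →ₗ[ℝ] Matrix b a ℝ where
  toFun Y := Matrix.of fun i j => Y (Sum.inl (Sum.inr i)) (Sum.inl j)
  map_add' _ _ := rfl
  map_smul' _ _ := rfl

/-- the nilpotent matrix -/
def NL (a b : Type) : Matrix b a ℝ →ₗ[ℝ] Matrix (a ⊕ b) (a ⊕ b) ℝ where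
  toFun X := fromBlocks 0 0 X 0
  map_add' P Q := by simp [fromBlocks_add]
  map_smul' c Q := by simp [fromBlocks_smul]

/-- the extended nilpotent matrix -/
def EL (a b κ : Type) : Matrix b a ℝ →ₗ[ℝ] Matrix ((a ⊕ b) ⊕ κ) ((a ⊕ b) ⊕ κ) ℝ where
  toFun X := fromBlocks (NL a b X) 0 0 0
  map_add' P Q := by simp [fromBlocks_add]
  map_smul' c Q := by simp [fromBlocks_smul]

/-- the linear map killing block `21` -/
def killL (a b κ : Type) :
    Matrix ((a ⊕ b) ⊕ κ) (a ⊕ b) ℝ →ₗ[ℝ] Matrix ((a ⊕ b) ⊕ κ) (a ⊕ b) ℝ where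
  toFun Y := Matrix.of fun i j => match i, j with
    | Sum.inl (Sum.inr _), Sum.inl _ => 0
    | i, j => Y i j
  map_add' P Q := by
    ext i j
    rcases i with (i | i) | i <;> rcases j with j | j <;> simp
  map_smul' c Q := by
    ext i j
    rcases i with (i | i) | i <;> rcases j with j | j <;> simp

omit [Fintype a] [DecidableEq a] [Fintype b] [DecidableEq b] [Fintype κ] [DecidableEq κ] in
theorem Xof_eq (Y : Matrix ((a ⊕ b) ⊕ κ) (a ⊕ b) ℝ) : Xof Y = XofL a b κ Y := rfl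

omit [Fintype a] [DecidableEq a] [Fintype b] [DecidableEq b] [Fintype κ] [DecidableEq κ] in
theorem kill_eq (Y : Matrix ((a ⊕ b) ⊕ κ) (a ⊕ b) ℝ) : kill Y = killL a b κ Y := by
  ext i j
  rcases i with (i | i) | i <;> rcases j with j | j <;> rfl

omit [Fintype a] [Fintype b] in
theorem uu_eq (X : Matrix b a ℝ) : uu X = 1 + NL a b X := by
  ext i j
  rcases i with i | i <;> rcases j with j | j <;> simp [uu, NL, Matrix.one_apply]

omit [Fintype a] [Fintype b] [Fintype κ] in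
theorem ext_uu_eq (X : Matrix b a ℝ) : ext κ (uu X) = 1 + EL a b κ X := by
  ext i j
  rcases i with (i | i) | i <;> rcases j with (j | j) | j <;>
    simp [Pool.Agent.H84.TO.ext, uu, EL, NL, Matrix.one_apply]

theorem det_uu (X : Matrix b a ℝ) : (uu X).det = 1 := by
  simp [uu]

theorem det_ext (g : Matrix (a ⊕ b) (a ⊕ b) ℝ) : (ext κ g).det = g.det := by
  simp [Pool.Agent.H84.TO.ext]

omit [DecidableEq a] [DecidableEq b] in
theorem NL_mul (X Y : Matrix b a ℝ) : NL a b X * NL a b Y = 0 := by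
  simp [NL, fromBlocks_multiply]

omit [DecidableEq a] [DecidableEq b] [DecidableEq κ] in
theorem EL_mul (X Y : Matrix b a ℝ) : EL a b κ X * EL a b κ Y = 0 := by
  simp [EL, fromBlocks_multiply, NL_mul]

/-- the shear map, as a product of affine maps -/
theorem Phi_eq (Y : Matrix ((a ⊕ b) ⊕ κ) (a ⊕ b) ℝ) :
    Phi Y = mulB _ _ _ (mulB _ _ _ (1 + EL a b κ (XofL a b κ Y)) (killL a b κ Y))
      (1 - NL a b (XofL a b κ Y)) := by
  rw [mulB_apply, mulB_apply, ← ext_uu_eq, ← kill_eq, ← Xof_eq]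
  have : (1 : Matrix (a ⊕ b) (a ⊕ b) ℝ) - NL a b (Xof Y) = uu (-Xof Y) := by
    rw [uu_eq, map_neg, sub_eq_add_neg]
  rw [this]
  rfl

/-- the bracket -/
def Br (K : Matrix ((a ⊕ b) ⊕ κ) (a ⊕ b) ℝ) :
    Matrix ((a ⊕ b) ⊕ κ) (a ⊕ b) ℝ →ₗ[ℝ] Matrix ((a ⊕ b) ⊕ κ) (a ⊕ b) ℝ where
  toFun H := EL a b κ (XofL a b κ H) * K + killL a b κ H - K * NL a b (XofL a b κ H)
  map_add' P Q := by
    simp only [map_add, Matrix.mul_add, Matrix.add_mul]
    abel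
  map_smul' c Q := by
    simp only [map_smul, Matrix.mul_smul, Matrix.smul_mul, RingHom.id_apply, smul_add, smul_sub]

theorem det_Br (Y : Matrix ((a ⊕ b) ⊕ κ) (a ⊕ b) ℝ) :
    LinearMap.det (Br (kill Y)) = LinearMap.det (ric (Aof Y) (Zof Y)) := by
  refine det_of_quot _ _ (XofL a b κ) ?_ ?_ ?_
  · intro X
    refine ⟨fromRows (fromBlocks 0 0 X 0) 0, ?_⟩
    ext i j
    simp [XofL]
  · intro H hH
    change EL a b κ (XofL a b κ H) * kill Y + killL a b κ H - kill Y * NL a b (XofL a b κ H) = H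
    rw [hH, map_zero, map_zero, Matrix.zero_mul, Matrix.mul_zero, zero_add, sub_zero]
    ext i j
    rcases i with (i | i) | i <;> rcases j with j | j
    all_goals first | rfl | skip
    have : XofL a b κ H i j = 0 := by rw [hH]; rfl
    exact this.symm
  · intro H
    set X := XofL a b κ H with hX
    change XofL a b κ (EL a b κ X * kill Y + killL a b κ H - kill Y * NL a b X) =
      X * Zof Y - Aof Y * X
    ext i j
    simp [XofL, EL, NL, kill, killL, Matrix.mul_apply, Fintype.sum_sum_type, Matrix.sub_apply,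
      Matrix.add_apply]

theorem contDiff_Phi : ContDiff ℝ 1
    (Phi : Matrix ((a ⊕ b) ⊕ κ) (a ⊕ b) ℝ → Matrix ((a ⊕ b) ⊕ κ) (a ⊕ b) ℝ) := by
  have h0 : (Phi : Matrix ((a ⊕ b) ⊕ κ) (a ⊕ b) ℝ → Matrix ((a ⊕ b) ⊕ κ) (a ⊕ b) ℝ) =
      fun Y => mulB _ _ _ (mulB _ _ _ (1 + EL a b κ (XofL a b κ Y)) (killL a b κ Y))
      (1 - NL a b (XofL a b κ Y)) := by
    funext Y
    exact Phi_eq Y
  rw [h0]
  have hE : ContDiff ℝ 1 (fun Y : Matrix ((a ⊕ b) ⊕ κ) (a ⊕ b) ℝ =>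
      (1 : Matrix ((a ⊕ b) ⊕ κ) ((a ⊕ b) ⊕ κ) ℝ) + EL a b κ (XofL a b κ Y)) :=
    contDiff_const.add
      (LinearMap.toContinuousLinearMap ((EL a b κ) ∘ₗ (XofL a b κ))).contDiff
  have hK : ContDiff ℝ 1 (fun Y : Matrix ((a ⊕ b) ⊕ κ) (a ⊕ b) ℝ => killL a b κ Y) :=
    (LinearMap.toContinuousLinearMap (killL a b κ)).contDiff
  have hN : ContDiff ℝ 1 (fun Y : Matrix ((a ⊕ b) ⊕ κ) (a ⊕ b) ℝ =>
      (1 : Matrix (a ⊕ b) (a ⊕ b) ℝ) - NL a b (XofL a b κ Y)) :=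
    contDiff_const.sub
      (LinearMap.toContinuousLinearMap ((NL a b) ∘ₗ (XofL a b κ))).contDiff
  exact ((mulB _ _ _).contDiff.comp (((mulB _ _ _).contDiff.comp hE).clm_apply hK)).clm_apply hN

theorem fderiv_Phi (Y H : Matrix ((a ⊕ b) ⊕ κ) (a ⊕ b) ℝ) :
    fderiv ℝ Phi Y H = ext κ (uu (Xof Y)) * Br (kill Y) H * uu (-Xof Y) := by
  have hE : HasFDerivAt (fun Y : Matrix ((a ⊕ b) ⊕ κ) (a ⊕ b) ℝ =>
      (1 : Matrix ((a ⊕ b) ⊕ κ) ((a ⊕ b) ⊕ κ) ℝ) + EL a b κ (XofL a b κ Y))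
      (LinearMap.toContinuousLinearMap ((EL a b κ) ∘ₗ (XofL a b κ))) Y :=
    (LinearMap.toContinuousLinearMap ((EL a b κ) ∘ₗ (XofL a b κ))).hasFDerivAt.const_add _
  have hK : HasFDerivAt (fun Y : Matrix ((a ⊕ b) ⊕ κ) (a ⊕ b) ℝ => killL a b κ Y)
      (LinearMap.toContinuousLinearMap (killL a b κ)) Y :=
    (LinearMap.toContinuousLinearMap (killL a b κ)).hasFDerivAt
  have hN : HasFDerivAt (fun Y : Matrix ((a ⊕ b) ⊕ κ) (a ⊕ b) ℝ =>
      (1 : Matrix (a ⊕ b) (a ⊕ b) ℝ) - NL a b (XofL a b κ Y))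
      (-(LinearMap.toContinuousLinearMap ((NL a b) ∘ₗ (XofL a b κ)))) Y :=
    (LinearMap.toContinuousLinearMap ((NL a b) ∘ₗ (XofL a b κ))).hasFDerivAt.const_sub _
  have h1 := (mulB _ _ _).hasFDerivAt_of_bilinear
    ((mulB _ _ _).hasFDerivAt_of_bilinear hE hK) hN
  have h0 : (Phi : Matrix ((a ⊕ b) ⊕ κ) (a ⊕ b) ℝ → Matrix ((a ⊕ b) ⊕ κ) (a ⊕ b) ℝ) =
      fun Y => mulB _ _ _ (mulB _ _ _ (1 + EL a b κ (XofL a b κ Y)) (killL a b κ Y))
      (1 - NL a b (XofL a b κ Y)) := by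
    funext Y
    exact Phi_eq Y
  obtain ⟨D, hD, hDH⟩ : ∃ D : Matrix ((a ⊕ b) ⊕ κ) (a ⊕ b) ℝ →L[ℝ]
      Matrix ((a ⊕ b) ⊕ κ) (a ⊕ b) ℝ, HasFDerivAt
      (Phi : Matrix ((a ⊕ b) ⊕ κ) (a ⊕ b) ℝ → Matrix ((a ⊕ b) ⊕ κ) (a ⊕ b) ℝ) D Y ∧
      D H = (1 + EL a b κ (XofL a b κ Y)) * killL a b κ Y * (-(NL a b (XofL a b κ H))) +
    ((1 + EL a b κ (XofL a b κ Y)) * killL a b κ H +
      EL a b κ (XofL a b κ H) * killL a b κ Y) * (1 - NL a b (XofL a b κ Y)) := by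
    rw [h0]
    exact ⟨_, h1, rfl⟩
  rw [hD.fderiv, hDH]
  change (1 + EL a b κ (XofL a b κ Y)) * killL a b κ Y * (-(NL a b (XofL a b κ H))) +
    ((1 + EL a b κ (XofL a b κ Y)) * killL a b κ H +
      EL a b κ (XofL a b κ H) * killL a b κ Y) * (1 - NL a b (XofL a b κ Y)) = _
  have hu : uu (-Xof Y) = 1 - NL a b (XofL a b κ Y) := by
    rw [uu_eq, map_neg, sub_eq_add_neg, Xof_eq]
  rw [hu, ext_uu_eq, Xof_eq, kill_eq]
  change _ = (1 + EL a b κ (XofL a b κ Y)) * (EL a b κ (XofL a b κ H) * killL a b κ Y +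
    killL a b κ H - killL a b κ Y * NL a b (XofL a b κ H)) * (1 - NL a b (XofL a b κ Y))
  set X := XofL a b κ Y
  set dX := XofL a b κ H
  set K := killL a b κ Y
  set dK := killL a b κ H
  have e1 : (1 + EL a b κ X) * (EL a b κ dX * K) = EL a b κ dX * K := by
    rw [← Matrix.mul_assoc, Matrix.add_mul, EL_mul, Matrix.one_mul, add_zero]
  have e2 : NL a b dX * (1 - NL a b X) = NL a b dX := by
    rw [Matrix.mul_sub, Matrix.mul_one, NL_mul, sub_zero]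
  generalize (1 - NL a b X) = R at e2 ⊢
  generalize (1 + EL a b κ X) = P at e1 ⊢
  generalize NL a b dX = N at e2 ⊢
  generalize EL a b κ dX = E at e1 ⊢
  have e3 : P * (K * N) * R = P * K * N := by
    rw [Matrix.mul_assoc, Matrix.mul_assoc K N R, e2, ← Matrix.mul_assoc]
  rw [Matrix.mul_sub, Matrix.mul_add, Matrix.sub_mul, e3, e1, Matrix.mul_neg,
    add_comm (P * dK)]
  abel

theorem det_fderiv_Phi (Y : Matrix ((a ⊕ b) ⊕ κ) (a ⊕ b) ℝ) :
    (fderiv ℝ Phi Y).det = LinearMap.det (ric (Aof Y) (Zof Y)) := by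
  have h : ((fderiv ℝ Phi Y : Matrix ((a ⊕ b) ⊕ κ) (a ⊕ b) ℝ →L[ℝ] _) :
      Matrix ((a ⊕ b) ⊕ κ) (a ⊕ b) ℝ →ₗ[ℝ] Matrix ((a ⊕ b) ⊕ κ) (a ⊕ b) ℝ) =
      rgt (uu (-Xof Y)) ∘ₗ lft (ext κ (uu (Xof Y))) ∘ₗ Br (kill Y) := by
    refine LinearMap.ext fun H => ?_
    exact fderiv_Phi Y H
  rw [ContinuousLinearMap.det, h, LinearMap.det_comp, LinearMap.det_comp, det_rgt, det_lft,
    det_Br, det_uu, det_ext, det_uu, one_pow, one_pow, one_mul, one_mul]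

end

theorem f1d : T_F1D := by
  intro a b κ _ _ _ _ _ _
  exact ⟨contDiff_Phi, fun Y => by rw [det_fderiv_Phi]⟩

end Pool.Agent.H86.TO
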