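import Mathlib
import Pool.Agent.H84.TO.TargetsH

/-!
# TO, module JDT: the determinant of the twisted map
-/

open MeasureTheory Matrix Filter Topology
open scoped ENNReal NNReal

namespace Pool.Agent.H86.TO

open Pool.Agent.H84.TO

section
variable {a : Type} [Fintype a] [DecidableEq a]

/-- `ξ ↦ Mᵀ ξ + ξᵀ M`, with values in the symmetric matrices -/
def Sg (M : Matrix a a ℝ) : Matrix a a ℝ →ₗ[ℝ] Sy a where
  toFun ξ := ⟨Mᵀ * ξ + ξᵀ * M, by
    change (Mᵀ * ξ + ξᵀ * M)ᵀ = Mᵀ * ξ + ξᵀ * M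
    rw [transpose_add, transpose_mul, transpose_mul, transpose_transpose, transpose_transpose,
      add_comm]⟩
  map_add' P Q := by
    apply Subtype.ext
    change Mᵀ * (P + Q) + (P + Q)ᵀ * M = (Mᵀ * P + Pᵀ * M) + (Mᵀ * Q + Qᵀ * M)
    rw [transpose_add, Matrix.mul_add, Matrix.add_mul]
    abel
  map_smul' c Q := by
    apply Subtype.ext
    change Mᵀ * (c • Q) + (c • Q)ᵀ * M = c • (Mᵀ * Q + Qᵀ * M)
    rw [transpose_smul, Matrix.mul_smul, Matrix.smul_mul, smul_add]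

theorem Sg_surj {M : Matrix a a ℝ} (hM : IsUnit M.det) : Function.Surjective (Sg M) := by
  rintro ⟨S, hS⟩
  have hS' : Sᵀ = S := hS
  refine ⟨(1 / 2 : ℝ) • ((M⁻¹)ᵀ * S), ?_⟩
  apply Subtype.ext
  change Mᵀ * ((1 / 2 : ℝ) • ((M⁻¹)ᵀ * S)) + ((1 / 2 : ℝ) • ((M⁻¹)ᵀ * S))ᵀ * M = S
  have h1 : Mᵀ * ((M⁻¹)ᵀ * S) = S := by
    rw [← Matrix.mul_assoc, ← transpose_mul, Matrix.nonsing_inv_mul M hM, transpose_one,
      Matrix.one_mul]
  have h2 : ((M⁻¹)ᵀ * S)ᵀ * M = S := by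
    rw [transpose_mul, transpose_transpose, hS', Matrix.mul_assoc, Matrix.nonsing_inv_mul M hM,
      Matrix.mul_one]
  rw [transpose_smul, Matrix.mul_smul, Matrix.smul_mul, h1, h2, ← add_smul]
  norm_num
end

theorem jdt : T_JDT := by
  intro ι _ _ M τ T hM hτ hT
  set W : Submodule ℝ (Matrix ι ι ℝ) := LinearMap.ker (Sg M) with hW
  have hTW : ∀ ξ ∈ W, T ξ = ξ := by
    intro ξ hξ
    have h0 : Sg M ξ = 0 := hξ
    have h1 : Mᵀ * ξ + ξᵀ * M = 0 := congrArg Subtype.val h0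
    rw [hT, h1, map_zero, Matrix.zero_mul, sub_zero]
  have e : W ≤ W.comap T := by
    intro ξ hξ
    change T ξ ∈ W
    rw [hTW ξ hξ]
    exact hξ
  have hST : ∀ ξ, Sg M (T ξ) = (sylv M M).restrict (sylv_mem M) (Sg M ξ) := by
    intro ξ
    apply Subtype.ext
    change Mᵀ * (T ξ) + (T ξ)ᵀ * M =
      (Mᵀ * ξ + ξᵀ * M) - Mᵀ * (Mᵀ * ξ + ξᵀ * M) * M
    have h1 := hτ (Mᵀ * ξ + ξᵀ * M) (by
      rw [transpose_add, transpose_mul, transpose_mul, transpose_transpose, transpose_transpose,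
        add_comm])
    set S := Mᵀ * ξ + ξᵀ * M with hS
    rw [hT, transpose_sub, transpose_mul, Matrix.mul_sub, Matrix.sub_mul]
    have h2 : Mᵀ * S * M = Mᵀ * (τ S * M) + Mᵀ * (τ S)ᵀ * M := by
      conv_lhs => rw [← h1]
      rw [Matrix.mul_add, Matrix.add_mul, Matrix.mul_assoc Mᵀ (τ S) M]
    rw [h2, hS]
    abel
  rw [LinearMap.det_eq_det_mul_det W T e]
  have h1 : T.restrict e = LinearMap.id := by
    refine LinearMap.ext fun x => ?_
    apply Subtype.ext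
    exact hTW x.1 x.2
  rw [h1, LinearMap.det_id, one_mul]
  set q := (Sg M).quotKerEquivOfSurjective (Sg_surj hM) with hq
  have h2 : (sylv M M).restrict (sylv_mem M) =
      (q : (Matrix ι ι ℝ ⧸ W) →ₗ[ℝ] Sy ι) ∘ₗ (W.mapQ W T e) ∘ₗ (q.symm : Sy ι →ₗ[ℝ] _) := by
    refine LinearMap.ext fun s => ?_
    obtain ⟨ξ, rfl⟩ := Sg_surj hM s
    have h3 : q.symm (Sg M ξ) = Submodule.Quotient.mk ξ := by
      rw [LinearEquiv.symm_apply_eq]
      rfl
    rw [← hST ξ]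
    change Sg M (T ξ) = q (W.mapQ W T e (q.symm (Sg M ξ)))
    rw [h3]
    rfl
  unfold detS
  rw [h2, LinearMap.det_conj]

end Pool.Agent.H86.TO
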