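import Mathlib
import Pool.Agent.H84.TO.TargetsH

/-!
# TO, module SQ1: the positive definite square root of a positive definite real matrix
-/

open MeasureTheory Matrix Filter Topology
open scoped ENNReal NNReal

namespace Pool.Agent.H86.TO

open Pool.Agent.H84.TO

section
variable {a b : Type*} [Fintype a] [Fintype b]

theorem trace_quad (R : Matrix a a ℝ) (D : Matrix b a ℝ) :
    (D * R * Dᵀ).trace = ∑ i, D i ⬝ᵥ (R *ᵥ D i) := by
  simp only [Matrix.trace, Matrix.diag_apply]
  refine Finset.sum_congr rfl fun i _ => ?_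
  rw [Matrix.mul_assoc, Matrix.mul_apply_eq_vecMul]
  simp only [Matrix.vecMul, dotProduct, Matrix.mul_apply, Matrix.transpose_apply, Matrix.mulVec]

theorem pd_nonneg {R : Matrix a a ℝ} (hR : R.PosDef) (x : a → ℝ) : 0 ≤ x ⬝ᵥ (R *ᵥ x) := by
  simpa using hR.posSemidef.dotProduct_mulVec_nonneg x

theorem pd_pos {R : Matrix a a ℝ} (hR : R.PosDef) {x : a → ℝ} (hx : x ≠ 0) :
    0 < x ⬝ᵥ (R *ᵥ x) := by
  simpa using hR.dotProduct_mulVec_pos hx

theorem trace_quad_nonneg {R : Matrix a a ℝ} (hR : R.PosDef) (D : Matrix b a ℝ) :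
    0 ≤ (D * R * Dᵀ).trace := by
  rw [trace_quad]
  exact Finset.sum_nonneg fun i _ => pd_nonneg hR _

theorem eq_zero_of_trace {R : Matrix a a ℝ} (hR : R.PosDef) {D : Matrix b a ℝ}
    (h : (D * R * Dᵀ).trace = 0) : D = 0 := by
  rw [trace_quad, Finset.sum_eq_zero_iff_of_nonneg fun i _ => pd_nonneg hR _] at h
  funext i
  by_contra hne
  exact absurd (h i (Finset.mem_univ i)) (pd_pos hR hne).ne'

/-- the Sylvester operator of two positive definite matrices is injective -/
theorem syl_inj {R : Matrix a a ℝ} {R' : Matrix b b ℝ} (hR : R.PosDef) (hR' : R'.PosDef)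
    {D : Matrix a b ℝ} (h : R * D + D * R' = 0) : D = 0 := by
  have h1 : (Dᵀ * R * D).trace + (D * R' * Dᵀ).trace = 0 := by
    have h2 : (Dᵀ * (R * D + D * R')).trace = 0 := by rw [h]; simp
    rw [Matrix.mul_add, Matrix.trace_add, ← Matrix.mul_assoc,
      Matrix.trace_mul_comm Dᵀ (D * R')] at h2
    exact h2
  have h3 : 0 ≤ (Dᵀ * R * D).trace := by
    have := trace_quad_nonneg hR Dᵀ
    rwa [Matrix.transpose_transpose] at this
  have h4 : 0 ≤ (D * R' * Dᵀ).trace := trace_quad_nonneg hR' D
  exact eq_zero_of_trace hR' (by linarith)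

variable [DecidableEq a]

theorem exists_sqrt {P : Matrix a a ℝ} (hP : P.PosDef) :
    ∃ R : Matrix a a ℝ, R.PosDef ∧ R * R = P := by
  have hH := hP.1
  set U : Matrix a a ℝ := (hH.eigenvectorUnitary : Matrix a a ℝ) with hU
  have hUU : star U * U = 1 := Unitary.coe_star_mul_self hH.eigenvectorUnitary
  have hUU' : U * star U = 1 := Unitary.coe_mul_star_self hH.eigenvectorUnitary
  have hsp : P = U * diagonal (hH.eigenvalues) * star U := by
    have := hH.spectral_theorem
    rw [Unitary.conjStarAlgAut_apply] at this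
    simpa using this
  have hpos : ∀ i, 0 < hH.eigenvalues i := hP.eigenvalues_pos
  refine ⟨U * diagonal (fun i => Real.sqrt (hH.eigenvalues i)) * star U, ?_, ?_⟩
  · have hd : (diagonal (fun i => Real.sqrt (hH.eigenvalues i))).PosDef :=
      Matrix.PosDef.diagonal fun i => Real.sqrt_pos.2 (hpos i)
    have hu : IsUnit U := ⟨⟨U, star U, hUU', hUU⟩, rfl⟩
    exact (Matrix.IsUnit.posDef_star_right_conjugate_iff hu).2 hd
  · calc U * diagonal (fun i => Real.sqrt (hH.eigenvalues i)) * star U *
        (U * diagonal (fun i => Real.sqrt (hH.eigenvalues i)) * star U)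
        = U * diagonal (fun i => Real.sqrt (hH.eigenvalues i)) * (star U * U) *
          diagonal (fun i => Real.sqrt (hH.eigenvalues i)) * star U := by
          simp only [Matrix.mul_assoc]
      _ = U * (diagonal (fun i => Real.sqrt (hH.eigenvalues i)) *
          diagonal (fun i => Real.sqrt (hH.eigenvalues i))) * star U := by
          rw [hUU, Matrix.mul_one]
          simp only [Matrix.mul_assoc]
      _ = P := by
          rw [Matrix.diagonal_mul_diagonal]
          conv_rhs => rw [hsp]
          congr 2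
          congr 1
          funext i
          exact Real.mul_self_sqrt (hpos i).le

theorem sqrt_unique {R R' : Matrix a a ℝ} (hR : R.PosDef) (hR' : R'.PosDef)
    (h : R * R = R' * R') : R = R' := by
  have h1 : R * (R - R') + (R - R') * R' = 0 := by
    rw [Matrix.mul_sub, Matrix.sub_mul, h]
    abel
  exact sub_eq_zero.1 (syl_inj hR hR' h1)
end

theorem sq1 : T_SQ1 := by
  intro ι _ _ P hP
  have hex := exists_sqrt hP
  have h1 : (rt P).PosDef ∧ rt P * rt P = P := by
    unfold rt
    rw [dif_pos hex]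
    exact hex.choose_spec
  refine ⟨h1.1, h1.2, fun R hR hRR => sqrt_unique hR h1.1 (by rw [hRR, h1.2])⟩

end Pool.Agent.H86.TO
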