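import Mathlib
import Pool.Agent.H84.TO.TargetsH
import Pool.Agent.H86.TO.SQ1
import Pool.Agent.H86.TO.Bil

/-!
# TO, module SQ2: smoothness and measurability of the positive definite square root
-/

open MeasureTheory Matrix Filter Topology
open scoped ENNReal NNReal

namespace Pool.Agent.H86.TO

open Pool.Agent.H84.TO

section
variable {a : Type} [Fintype a]

/-- positivity on the unit sphere -/
def PS (a : Type) [Fintype a] : Set (Matrix a a ℝ) :=
  {X | ∀ x ∈ Metric.sphere (0 : a → ℝ) 1, 0 < x ⬝ᵥ (X *ᵥ x)}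

theorem posDef_iff_PS {X : Matrix a a ℝ} : X.PosDef ↔ Xᵀ = X ∧ X ∈ PS a := by
  constructor
  · intro h
    refine ⟨by simpa using h.1.eq, fun x hx => pd_pos h ?_⟩
    rintro rfl
    simp at hx
  · rintro ⟨h1, h2⟩
    refine Matrix.PosDef.of_dotProduct_mulVec_pos (by
      rw [Matrix.IsHermitian, Matrix.conjTranspose_eq_transpose_of_trivial]; exact h1) ?_
    intro x hx
    have hn : 0 < ‖x‖ := norm_pos_iff.2 hx
    have h3 := h2 (‖x‖⁻¹ • x) (by simp [norm_smul, hn.ne'])
    rw [Matrix.mulVec_smul, smul_dotProduct, dotProduct_smul, smul_eq_mul, smul_eq_mul] at h3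
    have h4 : 0 < ‖x‖⁻¹ := inv_pos.2 hn
    have h5 := pos_of_mul_pos_right (pos_of_mul_pos_right h3 h4.le) h4.le
    simpa using h5

theorem isOpen_PS : IsOpen (PS a) := by
  rw [isOpen_iff_eventually]
  intro X hX
  have hK : IsCompact (Metric.sphere (0 : a → ℝ) 1) := isCompact_sphere _ _
  refine hK.eventually_forall_of_forall_eventually ?_
  intro x hx
  have hc : Continuous (fun p : Matrix a a ℝ × (a → ℝ) => p.2 ⬝ᵥ (p.1 *ᵥ p.2)) := by
    fun_prop
  exact (hc.continuousAt (x := (X, x))).eventually (lt_mem_nhds (hX x hx))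

omit [Fintype a] in
theorem isClosed_symm : IsClosed {X : Matrix a a ℝ | Xᵀ = X} :=
  isClosed_eq (by fun_prop) continuous_id

theorem measurableSet_posDef : MeasurableSet {X : Matrix a a ℝ | X.PosDef} := by
  have : {X : Matrix a a ℝ | X.PosDef} = {X : Matrix a a ℝ | Xᵀ = X} ∩ PS a := by
    ext X
    exact posDef_iff_PS
  rw [this]
  exact isClosed_symm.measurableSet.inter isOpen_PS.measurableSet

variable [DecidableEq a]

theorem sq_posDef {R : Matrix a a ℝ} (hR : R.PosDef) : (R * R).PosDef := by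
  have hT : Rᵀ = R := by simpa using hR.1.eq
  refine Matrix.PosDef.of_dotProduct_mulVec_pos (by
    rw [Matrix.IsHermitian, Matrix.conjTranspose_eq_transpose_of_trivial, Matrix.transpose_mul,
      hT]) ?_
  intro x hx
  have h1 : star x ⬝ᵥ ((R * R) *ᵥ x) = (R *ᵥ x) ⬝ᵥ (R *ᵥ x) := by
    rw [← Matrix.mulVec_mulVec, Matrix.dotProduct_mulVec, star_trivial]
    congr 1
    rw [← Matrix.mulVec_transpose, hT]
  rw [h1]
  have h2 : R *ᵥ x ≠ 0 := by
    intro h0
    have := pd_pos hR hx
    rw [h0] at this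
    simp at this
  have h3 : 0 ≤ (R *ᵥ x) ⬝ᵥ (R *ᵥ x) := by
    exact Finset.sum_nonneg fun i _ => mul_self_nonneg _
  refine lt_of_le_of_ne h3 (Ne.symm ?_)
  intro h4
  exact h2 (dotProduct_self_eq_zero.1 h4)

theorem rt_of_not {P : Matrix a a ℝ} (hP : ¬ P.PosDef) : rt P = 1 := by
  unfold rt
  rw [dif_neg]
  rintro ⟨R, hR, rfl⟩
  exact hP (sq_posDef hR)

/-- the derivative of the square at a positive definite matrix, as a linear equivalence -/
noncomputable def dsq (R : Matrix a a ℝ) : Matrix a a ℝ →L[ℝ] Matrix a a ℝ :=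
  (mulB a a a).precompR (Matrix a a ℝ) R (ContinuousLinearMap.id ℝ _) +
    (mulB a a a).precompL (Matrix a a ℝ) (ContinuousLinearMap.id ℝ _) R

omit [DecidableEq a] in
theorem dsq_apply (R H : Matrix a a ℝ) : dsq R H = R * H + H * R := rfl

omit [DecidableEq a] in
theorem hasStrict_sq (R : Matrix a a ℝ) :
    HasStrictFDerivAt (fun X : Matrix a a ℝ => X * X) (dsq R) R :=
  (mulB a a a).hasStrictFDerivAt_of_bilinear (hasStrictFDerivAt_id R) (hasStrictFDerivAt_id R)

omit [DecidableEq a] in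
theorem dsq_inj {R : Matrix a a ℝ} (hR : R.PosDef) : Function.Injective (dsq R) := by
  rw [injective_iff_map_eq_zero]
  intro H hH
  rw [dsq_apply] at hH
  exact syl_inj hR hR hH

/-- the derivative of the square at a positive definite matrix, as an equivalence -/
noncomputable def esq {R : Matrix a a ℝ} (hR : R.PosDef) : Matrix a a ℝ ≃L[ℝ] Matrix a a ℝ :=
  (LinearEquiv.ofInjectiveEndo (dsq R).toLinearMap (dsq_inj hR)).toContinuousLinearEquiv

omit [DecidableEq a] in
theorem esq_coe {R : Matrix a a ℝ} (hR : R.PosDef) :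
    (esq hR : Matrix a a ℝ →L[ℝ] Matrix a a ℝ) = dsq R := by
  ext H : 1
  rfl

theorem exists_local {P : Matrix a a ℝ} (hP : P.PosDef) :
    ∃ (g : Matrix a a ℝ → Matrix a a ℝ) (g' : Matrix a a ℝ →L[ℝ] Matrix a a ℝ),
      HasStrictFDerivAt g g' P ∧ (∀ H, rt P * g' H + g' H * rt P = H) ∧
      (∀ H, (g' H)ᵀ = g' Hᵀ) ∧ ∀ᶠ Q in 𝓝 P, Qᵀ = Q → g Q = rt Q := by
  obtain ⟨hR, hRR, -⟩ := sq1 a P hP
  set R := rt P with hRdef
  have hRT : Rᵀ = R := by simpa using hR.1.eq
  have hs : HasStrictFDerivAt (fun X : Matrix a a ℝ => X * X)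
      (esq hR : Matrix a a ℝ →L[ℝ] Matrix a a ℝ) R := by
    rw [esq_coe]
    exact hasStrict_sq R
  have h1 := hs.to_localInverse
  have h2 := hs.eventually_right_inverse
  have h3 := hs.eventually_left_inverse
  have h4 := hs.localInverse_tendsto
  set g := hs.localInverse _ _ R with hg
  simp only [hRR] at h1 h2 h4
  have hgH : ∀ H, R * (esq hR).symm H + (esq hR).symm H * R = H := by
    intro H
    have : dsq R ((esq hR).symm H) = H := (esq hR).apply_symm_apply H
    rwa [dsq_apply] at this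
  refine ⟨g, ((esq hR).symm : Matrix a a ℝ →L[ℝ] Matrix a a ℝ), h1, hgH, ?_, ?_⟩
  · intro H
    apply (esq hR).injective
    change dsq R (((esq hR).symm H)ᵀ) = (esq hR) ((esq hR).symm Hᵀ)
    rw [(esq hR).apply_symm_apply, dsq_apply]
    conv_rhs => rw [← hgH H]
    rw [Matrix.transpose_add, Matrix.transpose_mul, Matrix.transpose_mul, hRT, add_comm]
  · have h5 : Tendsto (fun Q => (g Q)ᵀ) (𝓝 P) (𝓝 R) := by
      have hc : Continuous (fun X : Matrix a a ℝ => Xᵀ) := by fun_prop
      have := (hc.tendsto R).comp h4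
      rwa [hRT] at this
    have h6 : R ∈ PS a := (posDef_iff_PS.1 hR).2
    filter_upwards [h2, h5.eventually h3, h4.eventually (isOpen_PS.mem_nhds h6)] with Q hQ1 hQ2 hQ3
      hQT
    have h7 : (g Q)ᵀ * (g Q)ᵀ = Q := by
      rw [← Matrix.transpose_mul, hQ1, hQT]
    rw [h7] at hQ2
    have h8 : (g Q).PosDef := posDef_iff_PS.2 ⟨hQ2.symm, hQ3⟩
    have h9 : Q.PosDef := by
      rw [← hQ1]
      exact sq_posDef h8
    exact (sq1 a Q h9).2.2 _ h8 hQ1

theorem continuousOn_rt : ContinuousOn (rt : Matrix a a ℝ → Matrix a a ℝ) {X | X.PosDef} := by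
  intro P hP
  obtain ⟨g, g', h1, -, -, h4⟩ := exists_local hP
  have h2 : ContinuousAt g P := h1.continuousAt
  refine ContinuousWithinAt.congr_of_eventuallyEq h2.continuousWithinAt ?_ ?_
  · filter_upwards [mem_nhdsWithin_of_mem_nhds h4, self_mem_nhdsWithin] with Q hQ hQ2
    exact (hQ (posDef_iff_PS.1 hQ2).1).symm
  · exact (h4.self_of_nhds (posDef_iff_PS.1 hP).1).symm

theorem measurable_rt : Measurable (rt : Matrix a a ℝ → Matrix a a ℝ) := by
  classical
  have h : (rt : Matrix a a ℝ → Matrix a a ℝ) =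
      {X : Matrix a a ℝ | X.PosDef}.piecewise rt (fun _ => 1) := by
    funext X
    by_cases hX : X ∈ {X : Matrix a a ℝ | X.PosDef}
    · rw [Set.piecewise_eq_of_mem _ _ _ hX]
    · rw [Set.piecewise_eq_of_notMem _ _ _ hX]
      exact rt_of_not hX
  rw [h]
  exact continuousOn_rt.measurable_piecewise continuousOn_const measurableSet_posDef
end

theorem sq2 : T_SQ2 := by
  intro ι _ _
  exact ⟨measurable_rt, fun P hP => exists_local hP⟩

end Pool.Agent.H86.TO
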