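import Mathlib
import Pool.Agent.H84.TO.TargetsH
import Pool.Agent.H86.TO.SQ2
import Pool.Agent.H86.TO.BLKV
import Pool.Agent.H86.TO.JDT
import Pool.Agent.H86.TO.CONj

/-!
# TO, module JAC: the derivative of the map `[G; W] ↦ [P^{-1/2} G; W]`
-/

open MeasureTheory Matrix Filter Topology
open scoped ENNReal NNReal

namespace Pool.Agent.H86.TO

open Pool.Agent.H84.TO

/-- a determinant read off on an invariant subspace with trivial quotient -/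
theorem det_of_sub {V U : Type*} [AddCommGroup V] [Module ℝ V] [FiniteDimensional ℝ V]
    [AddCommGroup U] [Module ℝ U] (f : V →ₗ[ℝ] V) (g : U →ₗ[ℝ] U) (i : U →ₗ[ℝ] V)
    (hi : Function.Injective i) (h1 : ∀ x, f x - x ∈ LinearMap.range i)
    (h2 : ∀ u, f (i u) = i (g u)) : LinearMap.det f = LinearMap.det g := by
  set W : Submodule ℝ V := LinearMap.range i with hW
  have e : W ≤ W.comap f := by
    rintro _ ⟨u, rfl⟩
    change f (i u) ∈ W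
    rw [h2]
    exact ⟨g u, rfl⟩
  rw [LinearMap.det_eq_det_mul_det W f e]
  have h3 : W.mapQ W f e = LinearMap.id := by
    refine LinearMap.ext fun x => ?_
    obtain ⟨x, rfl⟩ := Submodule.Quotient.mk_surjective W x
    change Submodule.Quotient.mk (f x) = Submodule.Quotient.mk x
    exact (Submodule.Quotient.eq W).2 (h1 x)
  rw [h3, LinearMap.det_id, mul_one]
  set q := LinearEquiv.ofInjective i hi with hq
  have h4 : f.restrict e = (q : U →ₗ[ℝ] W) ∘ₗ g ∘ₗ (q.symm : W →ₗ[ℝ] U) := by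
    refine LinearMap.ext fun s => ?_
    obtain ⟨u, rfl⟩ := q.surjective s
    apply Subtype.ext
    change f (i u) = i (g (q.symm (q u)))
    rw [q.symm_apply_apply, h2]
  rw [h4, LinearMap.det_conj]

section inv
variable {ι : Type*} [Fintype ι] [DecidableEq ι]

/-- matrices as continuous linear maps -/
noncomputable def EC (ι : Type*) [Fintype ι] [DecidableEq ι] :
    Matrix ι ι ℝ ≃ₗ[ℝ] ((ι → ℝ) →L[ℝ] (ι → ℝ)) :=
  Matrix.toLin'.trans LinearMap.toContinuousLinearMap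

theorem EC_mul (X Y : Matrix ι ι ℝ) : EC ι (X * Y) = EC ι X * EC ι Y := by
  ext1 v
  change Matrix.toLin' (X * Y) v = Matrix.toLin' X (Matrix.toLin' Y v)
  rw [Matrix.toLin'_mul]
  rfl

theorem EC_one : EC ι 1 = 1 := by
  ext1 v
  change Matrix.toLin' 1 v = v
  rw [Matrix.toLin'_one]
  rfl

/-- the unit of an invertible matrix -/
noncomputable def ECu {X : Matrix ι ι ℝ} (hX : IsUnit X.det) : ((ι → ℝ) →L[ℝ] (ι → ℝ))ˣ where
  val := EC ι X
  inv := EC ι X⁻¹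
  val_inv := by rw [← EC_mul, Matrix.mul_nonsing_inv X hX, EC_one]
  inv_val := by rw [← EC_mul, Matrix.nonsing_inv_mul X hX, EC_one]

theorem EC_inv (X : Matrix ι ι ℝ) (hX : IsUnit X.det) :
    X⁻¹ = (EC ι).symm (Ring.inverse (EC ι X)) := by
  have h : Ring.inverse (EC ι X) = EC ι X⁻¹ := Ring.inverse_unit (ECu hX)
  rw [h, LinearEquiv.symm_apply_apply]

theorem hasFDerivAt_inv {E : Type*} [NormedAddCommGroup E] [NormedSpace ℝ E]
    {f : E → Matrix ι ι ℝ} {f' : E →L[ℝ] Matrix ι ι ℝ} {x : E} (hf : HasFDerivAt f f' x)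
    (hx : IsUnit (f x).det) :
    ∃ D : E →L[ℝ] Matrix ι ι ℝ, HasFDerivAt (fun y => (f y)⁻¹) D x ∧
      ∀ H, D H = -((f x)⁻¹ * f' H * (f x)⁻¹) := by
  set e := (EC ι).toContinuousLinearEquiv with he
  set u := ECu hx with hu
  set eL : Matrix ι ι ℝ →L[ℝ] ((ι → ℝ) →L[ℝ] (ι → ℝ)) := e.toContinuousLinearMap with heL
  set eS : ((ι → ℝ) →L[ℝ] (ι → ℝ)) →L[ℝ] Matrix ι ι ℝ := e.symm.toContinuousLinearMap with heS
  have h1 : HasFDerivAt (fun y => eL (f y)) (eL.comp f') x :=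
    HasFDerivAt.comp x eL.hasFDerivAt hf
  have h2 : HasFDerivAt (Ring.inverse : ((ι → ℝ) →L[ℝ] (ι → ℝ)) → ((ι → ℝ) →L[ℝ] (ι → ℝ)))
      (-((ContinuousLinearMap.mulLeftRight ℝ ((ι → ℝ) →L[ℝ] (ι → ℝ))) ↑u⁻¹) ↑u⁻¹) (eL (f x)) :=
    hasFDerivAt_ringInverse (𝕜 := ℝ) u
  have h3 := HasFDerivAt.comp (g := (Ring.inverse : ((ι → ℝ) →L[ℝ] (ι → ℝ)) → _))
    (f := fun y => eL (f y)) x h2 h1
  have h4 := HasFDerivAt.comp (g := eS) (f := fun y => Ring.inverse (eL (f y))) x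
    eS.hasFDerivAt h3
  refine ⟨_, h4.congr_of_eventuallyEq ?_, ?_⟩
  · have h5 : ∀ᶠ y in 𝓝 x, IsUnit (f y).det := by
      have hc : ContinuousAt (fun y => (f y).det) x := by
        have : Continuous (fun X : Matrix ι ι ℝ => X.det) := continuous_id.matrix_det
        exact ContinuousAt.comp (f := f) this.continuousAt hf.continuousAt
      filter_upwards [hc.eventually_ne hx.ne_zero] with y hy
      exact isUnit_iff_ne_zero.2 hy
    filter_upwards [h5] with y hy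
    exact EC_inv (f y) hy
  · intro H
    change (EC ι).symm (-(EC ι (f x)⁻¹ * EC ι (f' H) * EC ι (f x)⁻¹)) = _
    rw [map_neg, ← EC_mul, ← EC_mul, LinearEquiv.symm_apply_apply]
end inv

section
variable {ι κ : Type} [Fintype ι] [DecidableEq ι] [Fintype κ] [DecidableEq κ]

/-- upper block, as a linear map -/
def topL (ι κ : Type) : Matrix (ι ⊕ κ) ι ℝ →ₗ[ℝ] Matrix ι ι ℝ where
  toFun Y := top Y
  map_add' _ _ := rfl
  map_smul' _ _ := rfl

/-- lower block, as a linear map -/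
def botL (ι κ : Type) : Matrix (ι ⊕ κ) ι ℝ →ₗ[ℝ] Matrix κ ι ℝ where
  toFun Y := bot Y
  map_add' _ _ := rfl
  map_smul' _ _ := rfl

/-- inclusion as the upper block -/
def inT (ι κ : Type) : Matrix ι ι ℝ →ₗ[ℝ] Matrix (ι ⊕ κ) ι ℝ where
  toFun G := fromRows G 0
  map_add' P Q := by
    ext i j
    rcases i with i | i <;> simp
  map_smul' c Q := by
    ext i j
    rcases i with i | i <;> simp

/-- inclusion as the lower block -/
def inB (ι κ : Type) : Matrix κ ι ℝ →ₗ[ℝ] Matrix (ι ⊕ κ) ι ℝ where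
  toFun G := fromRows 0 G
  map_add' P Q := by
    ext i j
    rcases i with i | i <;> simp
  map_smul' c Q := by
    ext i j
    rcases i with i | i <;> simp

/-- transposition -/
def trL (m n : Type) : Matrix m n ℝ →ₗ[ℝ] Matrix n m ℝ where
  toFun G := Gᵀ
  map_add' P Q := transpose_add P Q
  map_smul' c Q := transpose_smul c Q

omit [Fintype ι] [DecidableEq ι] [Fintype κ] [DecidableEq κ] in
theorem fromRows_eq (U : Matrix ι ι ℝ) (V : Matrix κ ι ℝ) :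
    fromRows U V = inT ι κ U + inB ι κ V := by
  ext i j
  rcases i with i | i <;> simp [inT, inB]

/-- the determinant of the upper block derivative -/
theorem det_D11 {R G : Matrix ι ι ℝ} {g' : Matrix ι ι ℝ →L[ℝ] Matrix ι ι ℝ} (hR : R.PosDef)
    (hG : G.det ≠ 0) (h1 : ∀ H, R * g' H + g' H * R = H) (h2 : ∀ H, (g' H)ᵀ = g' Hᵀ)
    (D1 : Matrix ι ι ℝ →ₗ[ℝ] Matrix ι ι ℝ)
    (hD : ∀ ξ, D1 ξ = R⁻¹ * ξ - R⁻¹ * g' (ξᵀ * G + Gᵀ * ξ) * R⁻¹ * G) :
    LinearMap.det D1 * R.det ^ Fintype.card ι = detS (R⁻¹ * G) := by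
  have hRT : Rᵀ = R := by simpa using hR.1.eq
  have hRd : IsUnit R.det := isUnit_iff_ne_zero.2 hR.det_pos.ne'
  have hRR : R * R⁻¹ = 1 := Matrix.mul_nonsing_inv R hRd
  have hRR' : R⁻¹ * R = 1 := Matrix.nonsing_inv_mul R hRd
  have hRiT : (R⁻¹)ᵀ = R⁻¹ := by rw [Matrix.transpose_nonsing_inv, hRT]
  set M := G * R⁻¹ with hM
  have hGM : G = M * R := by rw [hM, Matrix.mul_assoc, hRR', Matrix.mul_one]
  set τ : Matrix ι ι ℝ →ₗ[ℝ] Matrix ι ι ℝ :=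
    (rgt R⁻¹) ∘ₗ (g' : Matrix ι ι ℝ →ₗ[ℝ] Matrix ι ι ℝ) ∘ₗ (lft R) ∘ₗ (rgt R) with hτ
  have hτa : ∀ S, τ S = g' (R * (S * R)) * R⁻¹ := fun S => rfl
  set T : Matrix ι ι ℝ →ₗ[ℝ] Matrix ι ι ℝ := (lft R) ∘ₗ (rgt R⁻¹) ∘ₗ D1 ∘ₗ (rgt R) with hT
  have hTa : ∀ ξ, T ξ = R * (D1 (ξ * R) * R⁻¹) := fun ξ => rfl
  have hMd : IsUnit M.det := by
    rw [hM, det_mul]
    exact (isUnit_iff_ne_zero.2 hG).mul (Matrix.isUnit_nonsing_inv_det R hRd)
  have hτs : ∀ S : Matrix ι ι ℝ, Sᵀ = S → τ S + (τ S)ᵀ = S := by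
    intro S hS
    have hK : (g' (R * (S * R)))ᵀ = g' (R * (S * R)) := by
      rw [h2, transpose_mul, transpose_mul, hRT, hS, Matrix.mul_assoc]
    have h3 := h1 (R * (S * R))
    rw [hτa, transpose_mul, hK, hRiT]
    set K := g' (R * (S * R)) with hKdef
    calc K * R⁻¹ + R⁻¹ * K = R⁻¹ * (R * K + K * R) * R⁻¹ := by
          rw [Matrix.mul_add, Matrix.add_mul, ← Matrix.mul_assoc, hRR', Matrix.one_mul,
            Matrix.mul_assoc R⁻¹ (K * R), Matrix.mul_assoc K, hRR, Matrix.mul_one]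
      _ = S := by
          rw [h3, ← Matrix.mul_assoc R⁻¹, hRR', Matrix.one_mul, Matrix.mul_assoc, hRR,
            Matrix.mul_one]
  have hTx : ∀ ξ : Matrix ι ι ℝ, T ξ = ξ - τ (Mᵀ * ξ + ξᵀ * M) * M := by
    intro ξ
    have h4 : (ξ * R)ᵀ * G + Gᵀ * (ξ * R) = R * ((Mᵀ * ξ + ξᵀ * M) * R) := by
      rw [hGM, transpose_mul, transpose_mul, hRT, Matrix.add_mul, Matrix.mul_add, add_comm]
      simp only [Matrix.mul_assoc]
    rw [hTa, hτa, hD, h4]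
    set K := g' (R * ((Mᵀ * ξ + ξᵀ * M) * R)) with hK
    rw [Matrix.sub_mul, Matrix.mul_sub]
    congr 1
    · calc R * (R⁻¹ * (ξ * R) * R⁻¹) = (R * R⁻¹) * ξ * (R * R⁻¹) := by
            simp only [Matrix.mul_assoc]
        _ = ξ := by rw [hRR, Matrix.one_mul, Matrix.mul_one]
    · calc R * (R⁻¹ * K * R⁻¹ * G * R⁻¹) = (R * R⁻¹) * K * R⁻¹ * (G * R⁻¹) := by
            simp only [Matrix.mul_assoc]
        _ = K * R⁻¹ * M := by rw [hRR, Matrix.one_mul]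
  have h5 := jdt ι M τ T hMd hτs hTx
  have h6 : LinearMap.det T = LinearMap.det D1 * R.det ^ Fintype.card ι := by
    rw [hT, LinearMap.det_comp, LinearMap.det_comp, LinearMap.det_comp, det_lft, det_rgt, det_rgt,
      Matrix.det_nonsing_inv, Ring.inverse_eq_inv']
    have : R.det ^ Fintype.card ι ≠ 0 := pow_ne_zero _ hR.det_pos.ne'
    rw [inv_pow]
    field_simp
  rw [← h6, h5]
  have h7 := detS_conj hRd (R⁻¹ * G)
  rw [← h7]
  congr 1
  rw [← Matrix.mul_assoc, hRR, Matrix.one_mul]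

theorem jac_aux (Y : Matrix (ι ⊕ κ) ι ℝ) (hP : (Yᵀ * Y).PosDef) (hG : (top Y).det ≠ 0) :
    ∃ D : Matrix (ι ⊕ κ) ι ℝ →L[ℝ] Matrix (ι ⊕ κ) ι ℝ,
      HasFDerivAt (fun Y : Matrix (ι ⊕ κ) ι ℝ =>
        fromRows ((rt (Yᵀ * Y))⁻¹ * top Y) (bot Y)) D Y ∧
      |D.det| = (Yᵀ * Y).det ^ (-(Fintype.card ι : ℝ) / 2) *
        |detS ((rt (Yᵀ * Y))⁻¹ * top Y)| := by
  obtain ⟨g, g', hg1, hg2, hg3, hg4⟩ := exists_local hP
  obtain ⟨hR, hRR, -⟩ := sq1 ι _ hP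
  set R := rt (Yᵀ * Y) with hRdef
  have hRd : IsUnit R.det := isUnit_iff_ne_zero.2 hR.det_pos.ne'
  have hgR : g (Yᵀ * Y) = R := hg4.self_of_nhds (posDef_iff_PS.1 hP).1
  -- the derivative of `Yᵀ Y`
  have hT : HasFDerivAt (fun Y : Matrix (ι ⊕ κ) ι ℝ => Yᵀ)
      (LinearMap.toContinuousLinearMap (trL (ι ⊕ κ) ι)) Y :=
    (LinearMap.toContinuousLinearMap (trL (ι ⊕ κ) ι)).hasFDerivAt
  have hI : HasFDerivAt (fun Y : Matrix (ι ⊕ κ) ι ℝ => Y)
      (ContinuousLinearMap.id ℝ (Matrix (ι ⊕ κ) ι ℝ)) Y := hasFDerivAt_id Y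
  have hPd := (mulB ι (ι ⊕ κ) ι).hasFDerivAt_of_bilinear hT hI
  have hcont : Continuous (fun Y : Matrix (ι ⊕ κ) ι ℝ => Yᵀ * Y) :=
    continuous_id.matrix_transpose.matrix_mul continuous_id
  have hgd : HasFDerivAt (fun Y : Matrix (ι ⊕ κ) ι ℝ => g (Yᵀ * Y)) _ Y :=
    HasFDerivAt.comp (g := g) (f := fun Y : Matrix (ι ⊕ κ) ι ℝ => Yᵀ * Y) Y
      hg1.hasFDerivAt hPd
  have hgd2 : IsUnit (g (Yᵀ * Y)).det := by rw [hgR]; exact hRd
  obtain ⟨D0, hD0, hD0H⟩ := hasFDerivAt_inv hgd hgd2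
  have hG1 : HasFDerivAt (fun Y : Matrix (ι ⊕ κ) ι ℝ => top Y)
      (LinearMap.toContinuousLinearMap (topL ι κ)) Y :=
    (LinearMap.toContinuousLinearMap (topL ι κ)).hasFDerivAt
  have hA := (mulB ι ι ι).hasFDerivAt_of_bilinear hD0 hG1
  have hA2 := (LinearMap.toContinuousLinearMap (inT ι κ)).hasFDerivAt.comp Y hA
  have hB2 : HasFDerivAt (fun Y : Matrix (ι ⊕ κ) ι ℝ => inB ι κ (bot Y))
      (LinearMap.toContinuousLinearMap (inB ι κ ∘ₗ botL ι κ)) Y :=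
    (LinearMap.toContinuousLinearMap (inB ι κ ∘ₗ botL ι κ)).hasFDerivAt
  have hF := hA2.add hB2
  obtain ⟨D, hD, hDH⟩ : ∃ D : Matrix (ι ⊕ κ) ι ℝ →L[ℝ] Matrix (ι ⊕ κ) ι ℝ,
      HasFDerivAt (fun Y : Matrix (ι ⊕ κ) ι ℝ =>
        inT ι κ ((g (Yᵀ * Y))⁻¹ * top Y) + inB ι κ (bot Y)) D Y ∧
      ∀ H, D H = inT ι κ ((g (Yᵀ * Y))⁻¹ * top H + D0 H * top Y) + inB ι κ (bot H) :=
    ⟨_, hF, fun H => rfl⟩
  have hD0H' : ∀ H, D0 H = -(R⁻¹ * g' (Yᵀ * H + Hᵀ * Y) * R⁻¹) := by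
    intro H
    rw [hD0H, hgR]
    rfl
  refine ⟨D, hD.congr_of_eventuallyEq ?_, ?_⟩
  · have h1 : ∀ᶠ Z in 𝓝 Y, (Zᵀ * Z)ᵀ = Zᵀ * Z → g (Zᵀ * Z) = rt (Zᵀ * Z) :=
      (hcont.tendsto Y).eventually hg4
    filter_upwards [h1] with Z hZ
    have h2 : g (Zᵀ * Z) = rt (Zᵀ * Z) := hZ (by rw [transpose_mul, transpose_transpose])
    rw [h2, fromRows_eq]
  · set D1 : Matrix ι ι ℝ →ₗ[ℝ] Matrix ι ι ℝ :=
      topL ι κ ∘ₗ (D : Matrix (ι ⊕ κ) ι ℝ →ₗ[ℝ] Matrix (ι ⊕ κ) ι ℝ) ∘ₗ inT ι κ with hD1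
    have hd1 : LinearMap.det (D : Matrix (ι ⊕ κ) ι ℝ →ₗ[ℝ] Matrix (ι ⊕ κ) ι ℝ) =
        LinearMap.det D1 := by
      refine det_of_sub _ _ (inT ι κ) ?_ ?_ ?_
      · intro U V hUV
        have := congrArg (fun Z : Matrix (ι ⊕ κ) ι ℝ => top Z) hUV
        exact this
      · intro H
        refine ⟨(g (Yᵀ * Y))⁻¹ * top H + D0 H * top Y - top H, ?_⟩
        change _ = D H - H
        rw [hDH]
        ext i j
        rcases i with i | i <;> simp [inT, inB]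
      · intro U
        change D (inT ι κ U) = inT ι κ (top (D (inT ι κ U)))
        rw [hDH]
        ext i j
        rcases i with i | i <;> simp [inT, inB]
    have hD1H : ∀ ξ, D1 ξ = R⁻¹ * ξ - R⁻¹ * g' (ξᵀ * top Y + (top Y)ᵀ * ξ) * R⁻¹ * top Y := by
      intro ξ
      change top (D (inT ι κ ξ)) = _
      have h3 : Yᵀ * (inT ι κ ξ) + (inT ι κ ξ)ᵀ * Y = ξᵀ * top Y + (top Y)ᵀ * ξ := by
        rw [add_comm]
        ext i j
        simp [inT, Matrix.mul_apply, Fintype.sum_sum_type, Matrix.toRows₁]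
      rw [hDH, hD0H', h3, hgR]
      have h4 : ∀ (U : Matrix ι ι ℝ) (V : Matrix κ ι ℝ), top (inT ι κ U + inB ι κ V) = U := by
        intro U V
        ext i j
        simp [inT, inB, Matrix.toRows₁]
      rw [h4, Matrix.neg_mul, ← sub_eq_add_neg]
      congr 1
    have h5 := det_D11 hR hG hg2 hg3 D1 hD1H
    have hRp : 0 < R.det := hR.det_pos
    have hPR : (Yᵀ * Y).det = R.det ^ 2 := by
      rw [← hRR, det_mul, sq]
    rw [← h5, ContinuousLinearMap.det, hd1, hPR, abs_mul, abs_of_pos (pow_pos hRp _)]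
    have h6 : (R.det ^ 2) ^ (-(Fintype.card ι : ℝ) / 2) = (R.det ^ Fintype.card ι)⁻¹ := by
      rw [← Real.rpow_natCast, ← Real.rpow_natCast, ← Real.rpow_mul hRp.le,
        ← Real.rpow_neg hRp.le]
      congr 1
      push_cast
      ring
    rw [h6]
    have h7 : R.det ^ Fintype.card ι ≠ 0 := (pow_pos hRp _).ne'
    field_simp
end

theorem jac : T_JAC := by
  intro ι κ _ _ _ _ Y hP hG
  exact jac_aux Y hP hG

end Pool.Agent.H86.TO
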