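import Mathlib

/-!
# TO: continuity of determinants and solutions for families of endomorphisms

Everything in a finite dimensional topological vector space (no norm needed).
-/

open Filter Topology Module

namespace Pool.Agent.H86.TO

section
variable {E : Type*} [AddCommGroup E] [Module ℝ E] [TopologicalSpace E]
  [IsTopologicalAddGroup E] [ContinuousSMul ℝ E] [T2Space E] [FiniteDimensional ℝ E]
  {T : Type*} [TopologicalSpace T]

/-- matrix entries of a pointwise continuous family -/
theorem continuous_toMatrix {f : T → (E →ₗ[ℝ] E)} (hf : ∀ x, Continuous (fun t => f t x))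
    {n : Type*} [Fintype n] [DecidableEq n] (b : Basis n ℝ E) :
    Continuous (fun t => LinearMap.toMatrix b b (f t)) := by
  refine continuous_matrix fun i j => ?_
  have h1 : (fun t => LinearMap.toMatrix b b (f t) i j) =
      fun t => b.coord i (f t (b j)) := by
    funext t
    rw [LinearMap.toMatrix_apply]
    rfl
  rw [h1]
  exact (LinearMap.continuous_of_finiteDimensional (b.coord i)).comp (hf _)

/-- determinants of a pointwise continuous family -/
theorem continuous_linDet {f : T → (E →ₗ[ℝ] E)} (hf : ∀ x, Continuous (fun t => f t x)) :
    Continuous (fun t => LinearMap.det (f t)) := by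
  classical
  set b := Module.finBasis ℝ E with hb
  have h1 : (fun t => LinearMap.det (f t)) = fun t => (LinearMap.toMatrix b b (f t)).det := by
    funext t
    rw [LinearMap.det_toMatrix]
  rw [h1]
  exact (continuous_toMatrix hf b).matrix_det

/-- solutions of linear equations depend continuously on the data -/
theorem continuousOn_solve {f : T → (E →ₗ[ℝ] E)} (hf : ∀ x, Continuous (fun t => f t x))
    {y : T → E} (hy : Continuous y) {S : Set T} (hS : ∀ t ∈ S, LinearMap.det (f t) ≠ 0)
    {x : T → E} (hx : ∀ t ∈ S, f t (x t) = y t) : ContinuousOn x S := by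
  classical
  set b := Module.finBasis ℝ E with hb
  have hM := continuous_toMatrix hf b
  have hd := continuous_linDet hf
  have key : ∀ t ∈ S, x t = b.equivFun.symm ((LinearMap.det (f t))⁻¹ •
      ((LinearMap.toMatrix b b (f t)).adjugate).mulVec (b.equivFun (y t))) := by
    intro t ht
    have h1 : b.equivFun (y t) = (LinearMap.toMatrix b b (f t)).mulVec (b.equivFun (x t)) := by
      rw [← hx t ht]
      exact (LinearMap.toMatrix_mulVec_repr b b (f t) (x t)).symm
    rw [h1, Matrix.mulVec_mulVec, Matrix.adjugate_mul, LinearMap.det_toMatrix,
      Matrix.smul_mulVec, Matrix.one_mulVec, smul_smul, inv_mul_cancel₀ (hS t ht), one_smul,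
      LinearEquiv.symm_apply_apply]
  refine ContinuousOn.congr ?_ key
  have h2 : Continuous (b.equivFun.symm : (Fin (finrank ℝ E) → ℝ) → E) :=
    LinearMap.continuous_of_finiteDimensional b.equivFun.symm.toLinearMap
  have h3 : Continuous (b.equivFun : E → _) :=
    LinearMap.continuous_of_finiteDimensional b.equivFun.toLinearMap
  refine h2.comp_continuousOn ?_
  have h4 : Continuous (fun t => ((LinearMap.toMatrix b b (f t)).adjugate).mulVec
      (b.equivFun (y t))) :=
    hM.matrix_adjugate.matrix_mulVec (h3.comp hy)
  have h5 : ContinuousOn (fun t => (LinearMap.det (f t))⁻¹) S :=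
    ContinuousOn.inv₀ hd.continuousOn hS
  exact h5.smul h4.continuousOn

end

end Pool.Agent.H86.TO
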