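import Mathlib
import Pool.Agent.H84.TO.TargetsH
import Pool.Agent.H86.TO.LinCont
import Pool.Agent.H86.TO.SQ2
import Pool.Agent.H86.TO.CONj

/-!
# TO, module MSP: measurability of the Stein data
-/

open MeasureTheory Matrix Filter Topology
open scoped ENNReal NNReal

namespace Pool.Agent.H86.TO

open Pool.Agent.H84.TO

section
variable {a b : Type} [Fintype a] [Fintype b]

theorem continuous_sylv (Q : Matrix a b ℝ) :
    Continuous (fun p : Matrix a a ℝ × Matrix b b ℝ => sylv p.1 p.2 Q) := by
  change Continuous (fun p : Matrix a a ℝ × Matrix b b ℝ => Q - p.1ᵀ * Q * p.2)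
  exact continuous_const.sub
    ((continuous_fst.matrix_transpose.matrix_mul continuous_const).matrix_mul continuous_snd)

theorem continuous_det_sylv :
    Continuous (fun p : Matrix a a ℝ × Matrix b b ℝ => LinearMap.det (sylv p.1 p.2)) :=
  continuous_linDet continuous_sylv

theorem inj_iff_det (f : Matrix a b ℝ →ₗ[ℝ] Matrix a b ℝ) :
    Function.Injective f ↔ LinearMap.det f ≠ 0 := by
  rw [← isUnit_iff_ne_zero, ← LinearMap.isUnit_iff_isUnit_det, LinearMap.isUnit_iff_ker_eq_bot,
    LinearMap.ker_eq_bot]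

theorem isOpen_inj : IsOpen {p : Matrix a a ℝ × Matrix b b ℝ |
    Function.Injective (sylv p.1 p.2)} := by
  have : {p : Matrix a a ℝ × Matrix b b ℝ | Function.Injective (sylv p.1 p.2)} =
      (fun p : Matrix a a ℝ × Matrix b b ℝ => LinearMap.det (sylv p.1 p.2)) ⁻¹' {0}ᶜ := by
    ext p
    exact inj_iff_det _
  rw [this]
  exact isOpen_compl_singleton.preimage continuous_det_sylv

theorem isOpen_inj_diag : IsOpen {A : Matrix a a ℝ | Function.Injective (sylv A A)} :=
  isOpen_inj.preimage (continuous_id.prodMk continuous_id)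

theorem continuous_detS [DecidableEq a] : Continuous (detS : Matrix a a ℝ → ℝ) := by
  unfold detS
  refine continuous_linDet fun Q => ?_
  refine Continuous.subtype_mk ?_ _
  exact (continuous_sylv Q.1).comp (continuous_id.prodMk continuous_id)

end

section
variable {ι κ : Type} [Fintype ι] [DecidableEq ι] [Fintype κ] [DecidableEq κ]

omit [Fintype ι] [DecidableEq ι] [Fintype κ] [DecidableEq κ] in
theorem continuous_top : Continuous (fun Y : Matrix (ι ⊕ κ) ι ℝ => top Y) := by
  unfold top Matrix.toRows₁
  fun_prop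

omit [Fintype ι] [DecidableEq ι] [Fintype κ] [DecidableEq κ] in
theorem continuous_bot : Continuous (fun Y : Matrix (ι ⊕ κ) ι ℝ => bot Y) := by
  unfold bot Matrix.toRows₂
  fun_prop

theorem isOpen_inj_top : IsOpen {Y : Matrix (ι ⊕ κ) ι ℝ |
    Function.Injective (sylv (top Y) (top Y))} :=
  isOpen_inj_diag.preimage continuous_top

theorem continuous_sylv_top (Q : Matrix ι ι ℝ) :
    Continuous (fun Y : Matrix (ι ⊕ κ) ι ℝ => sylv (top Y) (top Y) Q) := by
  change Continuous (fun Y : Matrix (ι ⊕ κ) ι ℝ => Q - (top Y)ᵀ * Q * top Y)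
  exact continuous_const.sub
    ((continuous_top.matrix_transpose.matrix_mul continuous_const).matrix_mul continuous_top)

theorem continuous_rhs : Continuous (fun Y : Matrix (ι ⊕ κ) ι ℝ => (bot Y)ᵀ * bot Y) :=
  continuous_bot.matrix_transpose.matrix_mul continuous_bot

theorem continuousOn_solP : ContinuousOn (solP : Matrix (ι ⊕ κ) ι ℝ → Matrix ι ι ℝ)
    {Y | Function.Injective (sylv (top Y) (top Y))} :=
  continuousOn_solve (E := Matrix ι ι ℝ) (T := Matrix (ι ⊕ κ) ι ℝ) continuous_sylv_top
    continuous_rhs (fun _ hY => (inj_iff_det _).1 hY) (fun _ hY => solP_spec hY)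

theorem measurable_solP : Measurable (solP : Matrix (ι ⊕ κ) ι ℝ → Matrix ι ι ℝ) := by
  classical
  set S : Set (Matrix (ι ⊕ κ) ι ℝ) := {Y | Function.Injective (sylv (top Y) (top Y))} with hS
  have h : (solP : Matrix (ι ⊕ κ) ι ℝ → Matrix ι ι ℝ) = S.piecewise solP (fun _ => 0) := by
    funext Y
    by_cases hY : Y ∈ S
    · rw [Set.piecewise_eq_of_mem _ _ _ hY]
    · rw [Set.piecewise_eq_of_notMem _ _ _ hY]
      unfold solP
      rw [if_neg]
      exact hY
  rw [h]
  exact continuousOn_solP.measurable_piecewise continuousOn_const isOpen_inj_top.measurableSet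

theorem measurableSet_good : MeasurableSet {Y : Matrix (ι ⊕ κ) ι ℝ | good Y} := by
  have : {Y : Matrix (ι ⊕ κ) ι ℝ | good Y} =
      {Y | Function.Injective (sylv (top Y) (top Y))} ∩ solP ⁻¹' {X | X.PosDef} := rfl
  rw [this]
  exact isOpen_inj_top.measurableSet.inter (measurable_solP measurableSet_posDef)

theorem measurable_matrix_det : Measurable (fun A : Matrix ι ι ℝ => A.det) :=
  (continuous_id.matrix_det : Continuous (fun A : Matrix ι ι ℝ => A.det)).measurable

theorem measurable_den : Measurable (den : Matrix (ι ⊕ κ) ι ℝ → ℝ) := by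
  unfold den
  refine Measurable.mul ?_ ?_
  · exact (measurable_matrix_det.comp measurable_solP).pow_const _
  · have h : Measurable (fun Y : Matrix (ι ⊕ κ) ι ℝ => detS (top Y)) :=
      (continuous_detS.comp continuous_top).measurable
    exact h.abs.inv

theorem measurable_wt : Measurable (wt : Matrix (ι ⊕ κ) ι ℝ → ℝ≥0∞) := by
  unfold wt
  refine ENNReal.measurable_ofReal.comp ?_
  have h : Measurable (fun Y : Matrix (ι ⊕ κ) ι ℝ => (Yᵀ * Y).det) :=
    ((continuous_id.matrix_transpose.matrix_mul continuous_id).matrix_det :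
      Continuous (fun Y : Matrix (ι ⊕ κ) ι ℝ => (Yᵀ * Y).det)).measurable
  exact h.pow_const _
end

theorem msp : T_MSP := by
  intro ι κ _ _ _ _
  exact ⟨isOpen_inj_diag.measurableSet, continuous_detS.measurable, measurable_solP,
    measurableSet_good, measurable_den, measurable_wt⟩

end Pool.Agent.H86.TO
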