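import Mathlib
import Pool.Agent.H84.TO.TargetsH
import Pool.Agent.H86.TO.MSP

/-!
# TO, module NCR: the cross term is invertible for almost every `Z`
-/

open MeasureTheory Matrix Filter Topology
open scoped ENNReal NNReal

namespace Pool.Agent.H86.TO

open Pool.Agent.H84.TO

/-- `det (1 - t N)` vanishes for finitely many `t` -/
theorem finite_det {V : Type*} [AddCommGroup V] [Module ℝ V] [FiniteDimensional ℝ V]
    (N : V →ₗ[ℝ] V) : {t : ℝ | LinearMap.det (1 - t • N) = 0}.Finite := by
  refine Set.Finite.subset ((N.charpoly.roots.toFinset.image (fun t : ℝ => t⁻¹)).finite_toSet) ?_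
  intro t ht
  have ht' : LinearMap.det (1 - t • N) = 0 := ht
  have h0 : t ≠ 0 := by
    rintro rfl
    rw [zero_smul, sub_zero, map_one] at ht'
    exact one_ne_zero ht'
  rw [Finset.mem_coe, Finset.mem_image]
  refine ⟨t⁻¹, ?_, inv_inv t⟩
  rw [Multiset.mem_toFinset, Polynomial.mem_roots N.charpoly_monic.ne_zero, Polynomial.IsRoot.def,
    LinearMap.eval_charpoly]
  have h1 : (algebraMap ℝ (V →ₗ[ℝ] V) t⁻¹ - N) = t⁻¹ • (1 - t • N) := by
    rw [smul_sub, smul_smul, inv_mul_cancel₀ h0, one_smul, Algebra.algebraMap_eq_smul_one]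
  rw [h1, LinearMap.det_smul, ht', mul_zero]

theorem ncr (hL : T_LIN) : T_NCR := by
  intro a b _ _ _ _ A
  refine ⟨isOpen_inj.measurableSet, ?_⟩
  have hm : MeasurableSet {Z : Matrix a a ℝ | Function.Injective (sylv Z A)}ᶜ := by
    refine MeasurableSet.compl ?_
    have : IsOpen {Z : Matrix a a ℝ | Function.Injective (sylv Z A)} :=
      isOpen_inj.preimage (continuous_id.prodMk continuous_const)
    exact this.measurableSet
  rw [ae_iff]
  refine (hL a a _ hm).2 fun Z => ?_
  set N : Matrix a b ℝ →ₗ[ℝ] Matrix a b ℝ := rgt A ∘ₗ lft Zᵀ with hN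
  refine Set.Finite.measure_zero ((finite_det N).subset ?_) _
  intro t ht
  have ht' : ¬ Function.Injective (sylv (t • Z) A) := ht
  rw [inj_iff_det, not_not] at ht'
  have h1 : (sylv (t • Z) A : Matrix a b ℝ →ₗ[ℝ] Matrix a b ℝ) = 1 - t • N := by
    refine LinearMap.ext fun Q => ?_
    change Q - (t • Z)ᵀ * Q * A = Q - t • (Zᵀ * Q * A)
    rw [transpose_smul, Matrix.smul_mul, Matrix.smul_mul]
  change LinearMap.det (1 - t • N) = 0
  rw [← h1]
  exact ht'

end Pool.Agent.H86.TO
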