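import Mathlib
import Pool.Agent.H84.TO.TargetsH

/-!
# TO, module RSD: the determinant of the Sylvester operator is a resultant
-/

open MeasureTheory Matrix Filter Topology Polynomial
open scoped ENNReal NNReal

namespace Pool.Agent.H86.TO

open Pool.Agent.H84.TO

section gen
variable {a : Type*} [Fintype a] [DecidableEq a] {K : Type*} [Field K]

theorem det_aeval_prod (Z : Matrix a a K) (s : Multiset K) :
    (aeval Z (s.map (fun α => X - C α)).prod).det =
      (s.map (fun α => (-1) ^ Fintype.card a * Z.charpoly.eval α)).prod := by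
  induction s using Multiset.induction_on with
  | empty => simp
  | cons α s ih =>
    rw [Multiset.map_cons, Multiset.prod_cons, map_mul, det_mul, ih, Multiset.map_cons,
      Multiset.prod_cons]
    congr 1
    have h1 : aeval Z (X - C α) = -(Matrix.scalar a α - Z) := by
      rw [map_sub, aeval_X, aeval_C, neg_sub]
      rfl
    rw [h1, Matrix.det_neg, ← Matrix.eval_charpoly]

theorem det_aeval_splits (Z : Matrix a a K) {q : K[X]} (hq : q.Monic) (hs : q.Splits) :
    (aeval Z q).det = resultant Z.charpoly q := by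
  have hn : Z.charpoly.natDegree = Fintype.card a := Z.charpoly_natDegree_eq_dim
  have h1 : q = (q.roots.map (fun α => X - C α)).prod := by
    exact hs.eq_prod_roots_of_monic hq
  rw [resultant_comm, resultant_eq_prod_eval q Z.charpoly _ le_rfl hs, hq.leadingCoeff, one_pow,
    one_mul, hn]
  conv_lhs => rw [h1]
  rw [det_aeval_prod, Multiset.prod_map_mul, Multiset.map_const', Multiset.prod_replicate,
    ← pow_mul, hs.natDegree_eq_card_roots]
end gen

section
variable {a b : Type} [Fintype a] [DecidableEq a] [Fintype b] [DecidableEq b]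

theorem det_aeval_eq (Z : Matrix a a ℝ) {q : ℝ[X]} (hq : q.Monic) :
    (aeval Z q).det = resultant Z.charpoly q := by
  apply Complex.ofReal_injective
  have h1 := det_aeval_splits (Z.map Complex.ofRealHom) (q := q.map Complex.ofRealHom)
    (hq.map _) (IsAlgClosed.splits _)
  rw [Matrix.charpoly_map, Polynomial.natDegree_map, Polynomial.natDegree_map,
    resultant_map_map] at h1
  refine Eq.trans ?_ h1
  have h2 : aeval (Z.map Complex.ofRealHom) (q.map Complex.ofRealHom) =
      (aeval Z q).map Complex.ofRealHom := by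
    have h3 := Polynomial.hom_eval₂ q (algebraMap ℝ (Matrix a a ℝ)) (Complex.ofRealHom.mapMatrix) Z
    have h4 : (aeval Z q).map Complex.ofRealHom =
      Complex.ofRealHom.mapMatrix (Polynomial.eval₂ (algebraMap ℝ (Matrix a a ℝ)) Z q) := rfl
    rw [h4, h3]
    rw [Polynomial.aeval_def, Polynomial.eval₂_map]
    congr 1
    refine RingHom.ext fun c => ?_
    ext i j
    simp [Matrix.algebraMap_matrix_apply]
    split_ifs <;> simp
  rw [h2]
  exact (RingHom.map_det Complex.ofRealHom (aeval Z q))

theorem det_ric (A : Matrix b b ℝ) (Z : Matrix a a ℝ) :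
    LinearMap.det (ric A Z) = (aeval Z A.charpoly).det := by
  have h1 : (aeval Z A.charpoly).det = (aeval Zᵀ A.charpoly).det := by
    rw [← Matrix.det_transpose]
    congr 1
    induction A.charpoly using Polynomial.induction_on' with
    | add p q hp hq => rw [map_add, transpose_add, hp, hq, map_add]
    | monomial n c =>
      rw [aeval_monomial, aeval_monomial, transpose_mul, transpose_pow]
      have : (algebraMap ℝ (Matrix a a ℝ) c)ᵀ = algebraMap ℝ (Matrix a a ℝ) c := by
        ext i j
        simp [Matrix.algebraMap_matrix_apply, eq_comm]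
      rw [this]
      exact ((Algebra.commutes c (Zᵀ ^ n))).symm
  have h2 := Matrix.det_det (m := b) (n := a) (R := ℝ) (S := ℝ[X]) (M := A.charmatrix)
    ((aeval Zᵀ : ℝ[X] →ₐ[ℝ] Matrix a a ℝ) : ℝ[X] →+* Matrix a a ℝ)
  rw [h1]
  refine Eq.trans ?_ h2.symm
  rw [← LinearMap.det_toMatrix (Matrix.stdBasis ℝ b a)]
  congr 1
  ext ⟨i, k⟩ ⟨j, l⟩
  rw [LinearMap.toMatrix_apply, Matrix.stdBasis_eq_single]
  have h3 : ∀ M : Matrix b a ℝ, (Matrix.stdBasis ℝ b a).repr M (i, k) = M i k := by
    intro M
    rfl
  rw [h3]
  change (Matrix.single j l (1 : ℝ) * Z - A * Matrix.single j l (1 : ℝ)) i k =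
    (aeval Zᵀ (A.charmatrix i j)) k l
  by_cases hij : i = j
  · subst hij
    rw [Matrix.charmatrix_apply_eq, map_sub, aeval_X, aeval_C]
    simp only [Matrix.sub_apply, Matrix.transpose_apply, Matrix.algebraMap_matrix_apply,
      Algebra.algebraMap_self, RingHom.id_apply]
    simp [Matrix.mul_apply, Matrix.single_apply]
    by_cases hkl : k = l
    · simp [hkl]
    · simp [hkl, Ne.symm hkl]
  · rw [Matrix.charmatrix_apply_ne _ _ _ hij, map_neg, aeval_C]
    simp only [Matrix.sub_apply, Matrix.neg_apply, Matrix.algebraMap_matrix_apply,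
      Algebra.algebraMap_self, RingHom.id_apply]
    simp [Matrix.mul_apply, Matrix.single_apply, hij, Ne.symm hij]
    by_cases hkl : k = l
    · simp [hkl]
    · simp [hkl, Ne.symm hkl]
end

theorem rsd : T_RSD := by
  intro a b _ _ _ _ A Z
  rw [det_ric, det_aeval_eq Z A.charpoly_monic]
  rfl

end Pool.Agent.H86.TO
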